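import Mathlib

set_option autoImplicit false

namespace Pool.Agent.H53.Cfg

/-- A combinatorial `(n_3)` configuration with point set `Fin n`: `n` lines, each a 3-element set of
points, every point in exactly 3 lines, two distinct points in at most one common line. -/
structure Config (n : ℕ) where
  /-- The set of lines. -/
  lines : Finset (Finset (Fin n))
  card_lines : lines.card = n
  card_line : ∀ l ∈ lines, l.card = 3
  degree : ∀ p : Fin n, (lines.filter (fun l => p ∈ l)).card = 3
  linear : ∀ l ∈ lines, ∀ m ∈ lines, ∀ p q : Fin n, p ≠ q →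
    p ∈ l → q ∈ l → p ∈ m → q ∈ m → l = m

/-- A geometric representation of `C` in `ℝ^m`: the points go injectively to points, the lines go
injectively to straight lines (1-dimensional affine subspaces), and incidence is preserved and
reflected. -/
structure Rep {n : ℕ} (C : Config n) (m : ℕ) where
  /-- The image of a point. -/
  pt : Fin n → EuclideanSpace ℝ (Fin m)
  /-- The image of a line. -/
  ln : Finset (Fin n) → AffineSubspace ℝ (EuclideanSpace ℝ (Fin m))
  pt_injective : Function.Injective pt
  ln_nonempty : ∀ l ∈ C.lines, (ln l : Set (EuclideanSpace ℝ (Fin m))).Nonempty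
  ln_finrank : ∀ l ∈ C.lines, Module.finrank ℝ (ln l).direction = 1
  ln_injOn : ∀ l ∈ C.lines, ∀ l' ∈ C.lines, ln l = ln l' → l = l'
  incidence : ∀ p : Fin n, ∀ l ∈ C.lines, pt p ∈ ln l ↔ p ∈ l

/-- `C` is realizable if it has a geometric representation in some `ℝ^m`. -/
def Realizable {n : ℕ} (C : Config n) : Prop := ∃ m : ℕ, Nonempty (Rep C m)

/-- The dimension of the affine hull of the image point set of a representation. -/
noncomputable def Rep.dim {n : ℕ} {C : Config n} {m : ℕ} (R : Rep C m) : ℕ :=
  Module.finrank ℝ (affineSpan ℝ (Set.range R.pt)).direction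

/-- The dimension of `C`: the largest `d` such that `C` has a representation (in some `ℝ^m`) whose
image point set has an affine hull of dimension `d`. -/
noncomputable def dimension {n : ℕ} (C : Config n) : ℕ :=
  sSup {d : ℕ | ∃ (m : ℕ) (R : Rep C m), R.dim = d}

/-
TARGET:
theorem result (n : ℕ) (hn : 1 ≤ n) (hn14 : n ≤ 14) (C : Config n) (hC : Realizable C) :
    dimension C = 2 ∨ dimension C = 3
-/

end Pool.Agent.H53.Cfg
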