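import Mathlib
import Pool.Agent.H53.ConfigDefs

set_option autoImplicit false

namespace Pool.Agent.H53.Cfg
open Module Finset

section combinatorics

variable {n : ℕ} (C : Config n)

/-- The lines through a point. -/
def thr (p : Fin n) : Finset (Finset (Fin n)) := C.lines.filter (fun l => p ∈ l)

theorem thr_card (p : Fin n) : (thr C p).card = 3 := C.degree p

variable {C}

theorem mem_thr {p : Fin n} {l : Finset (Fin n)} : l ∈ thr C p ↔ l ∈ C.lines ∧ p ∈ l := by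
  simp [thr]

theorem eq_of_two {l m : Finset (Fin n)} (hl : l ∈ C.lines) (hm : m ∈ C.lines) {p q : Fin n}
    (hpq : p ≠ q) (h1 : p ∈ l) (h2 : q ∈ l) (h3 : p ∈ m) (h4 : q ∈ m) : l = m :=
  C.linear l hl m hm p q hpq h1 h2 h3 h4

theorem third {l : Finset (Fin n)} (hl : l ∈ C.lines) {p q : Fin n} (hp : p ∈ l) (hq : q ∈ l)
    (hpq : p ≠ q) : ∃ r, r ≠ p ∧ r ≠ q ∧ l = {p, q, r} := by
  have h1 : ((l.erase p).erase q).card = 1 := by
    rw [card_erase_of_mem (mem_erase.2 ⟨hpq.symm, hq⟩), card_erase_of_mem hp, C.card_line l hl]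
  obtain ⟨r, hr⟩ := card_eq_one.1 h1
  have hr' : r ∈ (l.erase p).erase q := by rw [hr]; simp
  simp only [mem_erase] at hr'
  refine ⟨r, hr'.2.1, hr'.1, ?_⟩
  ext x
  constructor
  · intro hx
    by_cases h2 : x = p
    · simp [h2]
    by_cases h3 : x = q
    · simp [h3]
    have : x ∈ (l.erase p).erase q := by simp [h2, h3, hx]
    rw [hr] at this
    simp only [mem_singleton] at this
    simp [this]
  · intro hx
    simp only [mem_insert, mem_singleton] at hx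
    rcases hx with rfl | rfl | rfl
    · exact hp
    · exact hq
    · exact hr'.2.2

theorem pts {l : Finset (Fin n)} (hl : l ∈ C.lines) {p : Fin n} (hp : p ∈ l) :
    ∃ a b, a ≠ p ∧ b ≠ p ∧ b ≠ a ∧ l = {p, a, b} := by
  have h1 : 0 < (l.erase p).card := by
    rw [card_erase_of_mem hp, C.card_line l hl]; norm_num
  obtain ⟨a, ha⟩ := card_pos.1 h1
  rw [mem_erase] at ha
  obtain ⟨b, hb1, hb2, hb3⟩ := third hl hp ha.2 ha.1.symm
  exact ⟨a, b, ha.1, hb1, hb2, hb3⟩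

theorem inter_le_one {l m : Finset (Fin n)} (hl : l ∈ C.lines) (hm : m ∈ C.lines) (hlm : l ≠ m) :
    (l ∩ m).card ≤ 1 := by
  rw [card_le_one]
  intro a ha b hb
  by_contra hab
  rw [mem_inter] at ha hb
  exact hlm (eq_of_two hl hm hab ha.1 hb.1 ha.2 hb.2)

/-- A system of representatives of other points on lines through `p`. -/
theorem card_of_choose (p : Fin n) (T : Finset (Finset (Fin n))) (hT : T ⊆ thr C p)
    (Q : Finset (Fin n)) (hp : p ∈ Q) (h : ∀ l ∈ T, ∃ q ∈ l, q ≠ p ∧ q ∈ Q) :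
    T.card + 1 ≤ Q.card := by
  have : Nonempty (Fin n) := ⟨p⟩
  choose! g hg1 hg2 hg3 using h
  have : T.card ≤ (Q.erase p).card := by
    apply card_le_card_of_injOn g
    · intro l hl
      exact mem_erase.2 ⟨hg2 l hl, hg3 l hl⟩
    · intro l hl m hm hlm
      have h1 := mem_thr.1 (hT hl)
      have h2 := mem_thr.1 (hT hm)
      exact eq_of_two h1.1 h2.1 (hg2 l hl).symm h1.2 (hg1 l hl) h2.2 (hlm ▸ hg1 m hm)
  rw [card_erase_of_mem hp] at this
  have : 0 < Q.card := card_pos.2 ⟨p, hp⟩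
  omega

theorem surj_of_choose (p : Fin n) (T : Finset (Finset (Fin n))) (hT : T ⊆ thr C p)
    (Q : Finset (Fin n)) (hp : p ∈ Q) (h : ∀ l ∈ T, ∃ q ∈ l, q ≠ p ∧ q ∈ Q)
    (hc : Q.card ≤ T.card + 1) :
    (∀ q ∈ Q, q ≠ p → ∃ l ∈ T, q ∈ l) ∧
    (∀ l ∈ T, ∀ q ∈ l, ∀ q' ∈ l, q ≠ p → q' ≠ p → q ∈ Q → q' ∈ Q → q = q') := by
  have : Nonempty (Fin n) := ⟨p⟩
  choose! g hg1 hg2 hg3 using h
  have hinj : Set.InjOn g T := by
    intro l hl m hm hlm
    have h1 := mem_thr.1 (hT hl)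
    have h2 := mem_thr.1 (hT hm)
    exact eq_of_two h1.1 h2.1 (hg2 l hl).symm h1.2 (hg1 l hl) h2.2 (hlm ▸ hg1 m hm)
  have himg : T.image g = Q.erase p := by
    apply eq_of_subset_of_card_le
    · intro x hx
      obtain ⟨l, hl, rfl⟩ := mem_image.1 hx
      exact mem_erase.2 ⟨hg2 l hl, hg3 l hl⟩
    · rw [card_image_of_injOn hinj, card_erase_of_mem hp]
      omega
  have key : ∀ q ∈ Q, q ≠ p → ∃ l ∈ T, g l = q := by
    intro q hq hqp
    have : q ∈ T.image g := by rw [himg]; exact mem_erase.2 ⟨hqp, hq⟩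
    obtain ⟨l, hl, rfl⟩ := mem_image.1 this
    exact ⟨l, hl, rfl⟩
  refine ⟨fun q hq hqp => ?_, ?_⟩
  · obtain ⟨l, hl, rfl⟩ := key q hq hqp
    exact ⟨l, hl, hg1 l hl⟩
  · intro l hl q hq q' hq' hqp hqp' hQ hQ'
    obtain ⟨m, hm, hmq⟩ := key q hQ hqp
    obtain ⟨m', hm', hmq'⟩ := key q' hQ' hqp'
    have h1 := mem_thr.1 (hT hl)
    have h2 := mem_thr.1 (hT hm)
    have h3 := mem_thr.1 (hT hm')
    have e1 : l = m := eq_of_two h1.1 h2.1 hqp.symm h1.2 hq h2.2 (hmq ▸ hg1 m hm)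
    have e2 : l = m' := eq_of_two h1.1 h3.1 hqp'.symm h1.2 hq' h3.2 (hmq' ▸ hg1 m' hm')
    rw [← hmq, ← hmq', ← e1, ← e2]

/-- The star of a point has seven points. -/
theorem star_card (p : Fin n) (Q : Finset (Fin n)) (h : ∀ l ∈ C.lines, p ∈ l → l ⊆ Q) :
    7 ≤ Q.card := by
  have h1 : ((thr C p).biUnion (fun l => l.erase p)).card = 6 := by
    rw [card_biUnion]
    · rw [sum_congr rfl (fun l hl => by
        rw [card_erase_of_mem (mem_thr.1 hl).2, C.card_line l (mem_thr.1 hl).1])]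
      rw [sum_const, thr_card]
      rfl
    · intro l hl m hm hlm
      rw [Function.onFun, disjoint_left]
      intro x hx hx'
      rw [mem_erase] at hx hx'
      exact hlm (eq_of_two (mem_thr.1 hl).1 (mem_thr.1 hm).1 hx.1.symm (mem_thr.1 hl).2 hx.2
        (mem_thr.1 hm).2 hx'.2)
  have h2 : insert p ((thr C p).biUnion (fun l => l.erase p)) ⊆ Q := by
    have hne : (thr C p).Nonempty := card_pos.1 (by rw [thr_card]; norm_num)
    obtain ⟨l, hl⟩ := hne
    apply insert_subset (h l (mem_thr.1 hl).1 (mem_thr.1 hl).2 (mem_thr.1 hl).2)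
    intro x hx
    obtain ⟨l, hl, hx⟩ := mem_biUnion.1 hx
    exact h l (mem_thr.1 hl).1 (mem_thr.1 hl).2 (mem_erase.1 hx).2
  have h3 := card_le_card h2
  rw [card_insert_of_notMem, h1] at h3
  · exact h3
  · intro hx
    obtain ⟨l, hl, hx⟩ := mem_biUnion.1 hx
    exact (mem_erase.1 hx).1 rfl

/-- Double counting. -/
theorem double_count (L : Finset (Finset (Fin n))) (Q : Finset (Fin n)) :
    ∑ p ∈ Q, (L.filter (fun l => p ∈ l)).card = ∑ l ∈ L, (l ∩ Q).card := by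
  have h := sum_card_bipartiteAbove_eq_sum_card_bipartiteBelow (s := Q) (t := L)
    (fun (p : Fin n) (l : Finset (Fin n)) => p ∈ l)
  simp only [bipartiteAbove, bipartiteBelow] at h
  rw [h]
  refine sum_congr rfl fun l _ => ?_
  congr 1
  ext x
  simp [and_comm]

/-- Existence of a triangle. -/
theorem triangle (hn : 1 ≤ n) (hn14 : n ≤ 14) :
    ∃ (p q r : Fin n) (l₁ l₂ m : Finset (Fin n)), l₁ ∈ C.lines ∧ l₂ ∈ C.lines ∧ m ∈ C.lines ∧
      p ∈ l₁ ∧ p ∈ l₂ ∧ p ∉ m ∧ q ∈ l₁ ∧ q ∈ m ∧ r ∈ l₂ ∧ r ∈ m ∧ q ≠ r ∧ l₁ ≠ l₂ := by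
  by_contra hcon
  push Not at hcon
  obtain ⟨p⟩ : Nonempty (Fin n) := ⟨⟨0, hn⟩⟩
  set Np := (thr C p).biUnion (fun l => l.erase p) with hNp
  have h1 : Np.card = 6 := by
    rw [hNp, card_biUnion]
    · rw [sum_congr rfl (fun l hl => by
        rw [card_erase_of_mem (mem_thr.1 hl).2, C.card_line l (mem_thr.1 hl).1])]
      rw [sum_const, thr_card]
      rfl
    · intro l hl m hm hlm
      rw [Function.onFun, disjoint_left]
      intro x hx hx'
      rw [mem_erase] at hx hx'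
      exact hlm (eq_of_two (mem_thr.1 hl).1 (mem_thr.1 hm).1 hx.1.symm (mem_thr.1 hl).2 hx.2
        (mem_thr.1 hm).2 hx'.2)
  have h2 := double_count (C.lines.filter (fun l => p ∉ l)) Np
  have h3 : ∀ q ∈ Np, ((C.lines.filter (fun l => p ∉ l)).filter (fun l => q ∈ l)).card = 2 := by
    intro q hq
    obtain ⟨l, hl, hx⟩ := mem_biUnion.1 hq
    have e : (C.lines.filter (fun l => p ∉ l)).filter (fun l => q ∈ l) = (thr C q).erase l := by
      ext m
      simp only [mem_filter, mem_erase, mem_thr]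
      constructor
      · rintro ⟨⟨h1, h2⟩, h3⟩
        exact ⟨fun h => h2 (h ▸ (mem_thr.1 hl).2), h1, h3⟩
      · rintro ⟨h1, h2, h3⟩
        refine ⟨⟨h2, fun h => h1 ?_⟩, h3⟩
        exact eq_of_two h2 (mem_thr.1 hl).1 (mem_erase.1 hx).1 h3 h (mem_erase.1 hx).2
          (mem_thr.1 hl).2
    rw [e, card_erase_of_mem, thr_card]
    exact mem_thr.2 ⟨(mem_thr.1 hl).1, (mem_erase.1 hx).2⟩
  rw [sum_congr rfl h3, sum_const, h1] at h2
  have h4 : ∀ m ∈ C.lines.filter (fun l => p ∉ l), (m ∩ Np).card ≤ 1 := by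
    intro m hm
    rw [mem_filter] at hm
    rw [card_le_one]
    intro q hq r hr
    by_contra hqr
    rw [mem_inter] at hq hr
    obtain ⟨l, hl, hx⟩ := mem_biUnion.1 hq.2
    obtain ⟨l', hl', hx'⟩ := mem_biUnion.1 hr.2
    rw [mem_erase] at hx hx'
    have := hcon p q r l l' m (mem_thr.1 hl).1 (mem_thr.1 hl').1 hm.1 (mem_thr.1 hl).2
      (mem_thr.1 hl').2 hm.2 hx.2 hq.1 hx'.2 hr.1 hqr
    subst this
    have := eq_of_two (mem_thr.1 hl).1 hm.1 hqr hx.2 hx'.2 hq.1 hr.1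
    exact hm.2 (this ▸ (mem_thr.1 hl).2)
  have h5 := sum_le_sum h4
  rw [← h2, sum_const] at h5
  have h6 : (C.lines.filter (fun l => p ∉ l)).card + 3 = n := by
    have := card_filter_add_card_filter_not (s := C.lines) (fun l => p ∈ l)
    rw [C.degree p, C.card_lines] at this
    omega
  simp only [smul_eq_mul, mul_one] at h5
  omega

end combinatorics

section linalg

variable {W : Type*} [AddCommGroup W] [Module ℝ W]

/-- Algebraic form of the non-realizability of the Fano plane. -/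
theorem fano_alg (f b1 b2 b3 a1 a2 a3 : W) (hind : LinearIndependent ℝ ![f, b1, b2])
    (p1 q1 p2 q2 p3 q3 r1 s1 r2 s2 r3 s3 : ℝ)
    (np1 : p1 ≠ 0) (nq1 : q1 ≠ 0) (nq3 : q3 ≠ 0) (nr1 : r1 ≠ 0)
    (ns1 : s1 ≠ 0) (ns2 : s2 ≠ 0)
    (h1 : a1 = p1 • f + q1 • b1) (h2 : a2 = p2 • f + q2 • b2) (h3 : a3 = p3 • f + q3 • b3)
    (h4 : a1 = r1 • b2 + s1 • b3) (h5 : a2 = r2 • b1 + s2 • b3) (h6 : a3 = r3 • b1 + s3 • b2) :
    LinearIndependent ℝ ![a1, a2, a3] := by
  have key : ∀ x y z : ℝ, x • f + y • b1 + z • b2 = 0 → x = 0 ∧ y = 0 ∧ z = 0 := by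
    intro x y z h
    have := Fintype.linearIndependent_iff.1 hind ![x, y, z] (by
      simp [Fin.sum_univ_three, h])
    exact ⟨by simpa using this 0, by simpa using this 1, by simpa using this 2⟩
  have e3 : s1 • b3 = p1 • f + q1 • b1 - r1 • b2 := by
    rw [← h1, h4]; abel
  -- second relation
  have k2 := key (p2 * s1 - s2 * p1) (-r2 * s1 - s2 * q1) (q2 * s1 + s2 * r1) (by
    have : s1 • (p2 • f + q2 • b2) = s1 • (r2 • b1) + s2 • (s1 • b3) := by
      rw [← h2, h5]; module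
    rw [e3] at this
    have h0 : s1 • (p2 • f + q2 • b2) - (s1 • (r2 • b1) + s2 • (p1 • f + q1 • b1 - r1 • b2)) = 0 := by
      rw [this]; abel
    rw [← h0]; module)
  have k3 := key (p3 * s1 + q3 * p1) (-r3 * s1 + q3 * q1) (-s3 * s1 - q3 * r1) (by
    have : s1 • a3 = s1 • (p3 • f) + q3 • (s1 • b3) := by
      rw [h3]; module
    rw [e3, h6] at this
    have h0 : s1 • (p3 • f) + q3 • (p1 • f + q1 • b1 - r1 • b2) - s1 • (r3 • b1 + s3 • b2) = 0 := by
      rw [this]; abel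
    rw [← h0]; module)
  rw [Fintype.linearIndependent_iff]
  intro g hg
  simp only [Fin.sum_univ_three, Matrix.cons_val_zero, Matrix.cons_val_one, Matrix.cons_val] at hg
  have kk := key (g 0 * p1 + g 1 * p2) (g 0 * q1 + g 2 * r3) (g 1 * q2 + g 2 * s3) (by
    have : g 0 • (p1 • f + q1 • b1) + g 1 • (p2 • f + q2 • b2) + g 2 • (r3 • b1 + s3 • b2) = 0 := by
      rw [← h1, ← h2, ← h6]; exact hg
    rw [← this]; module)
  obtain ⟨k21, k22, k23⟩ := k2
  obtain ⟨k31, k32, k33⟩ := k3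
  obtain ⟨u1, u2, u3⟩ := kk
  have e_p2 : p2 = s2 * p1 / s1 := by field_simp; linarith
  have e_q2 : q2 = - (s2 * r1 / s1) := by field_simp; linarith
  have e_r3 : r3 = q3 * q1 / s1 := by field_simp; linarith
  have e_s3 : s3 = - (q3 * r1 / s1) := by field_simp; linarith
  rw [e_p2] at u1
  rw [e_r3] at u2
  rw [e_q2, e_s3] at u3
  have v1 : g 0 * s1 + g 1 * s2 = 0 := by
    have : p1 * (g 0 * s1 + g 1 * s2) = 0 := by
      field_simp at u1; linarith
    exact (mul_eq_zero.1 this).resolve_left np1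
  have v2 : g 0 * s1 + g 2 * q3 = 0 := by
    have : q1 * (g 0 * s1 + g 2 * q3) = 0 := by
      field_simp at u2; linarith
    exact (mul_eq_zero.1 this).resolve_left nq1
  have v3 : g 1 * s2 + g 2 * q3 = 0 := by
    have : r1 * (g 1 * s2 + g 2 * q3) = 0 := by
      field_simp at u3; linarith
    exact (mul_eq_zero.1 this).resolve_left nr1
  have w0 : g 0 = 0 := by
    have : g 0 * s1 = 0 := by linarith
    exact (mul_eq_zero.1 this).resolve_right ns1
  have w1 : g 1 = 0 := by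
    have : g 1 * s2 = 0 := by linarith
    exact (mul_eq_zero.1 this).resolve_right ns2
  have w2 : g 2 = 0 := by
    have : g 2 * q3 = 0 := by linarith
    exact (mul_eq_zero.1 this).resolve_right nq3
  intro i
  fin_cases i
  · exact w0
  · exact w1
  · exact w2

/-- Exchange. -/
theorem exch {E : Submodule ℝ W} {x z : W} (h : x ∈ E ⊔ Submodule.span ℝ {z}) (hx : x ∉ E) :
    z ∈ E ⊔ Submodule.span ℝ {x} := by
  obtain ⟨e, he, y, hy, rfl⟩ := Submodule.mem_sup.1 h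
  obtain ⟨c, rfl⟩ := Submodule.mem_span_singleton.1 hy
  have hc : c ≠ 0 := by
    rintro rfl
    apply hx
    simpa using he
  have : z = (-c⁻¹) • e + c⁻¹ • (e + c • z) := by
    rw [smul_add, smul_smul, inv_mul_cancel₀ hc, one_smul, neg_smul]; abel
  have h2 : (-c⁻¹) • e + c⁻¹ • (e + c • z) ∈ E ⊔ Submodule.span ℝ {e + c • z} :=
    Submodule.add_mem_sup (Submodule.smul_mem _ _ he)
      (Submodule.smul_mem _ _ (Submodule.mem_span_singleton_self _))
  rwa [← this] at h2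

end linalg

section geometry

variable {n : ℕ} {C : Config n} {W : Type*} [AddCommGroup W] [Module ℝ W] {v : Fin n → W}

/-- The hypotheses on the vectors. -/
structure Good (C : Config n) (v : Fin n → W) : Prop where
  pair : ∀ p q : Fin n, p ≠ q → LinearIndependent ℝ ![v p, v q]
  line : ∀ l ∈ C.lines, ∀ p ∈ l, ∀ q ∈ l, p ≠ q → ∀ r : Fin n,
      v r ∈ Submodule.span ℝ {v p, v q} ↔ r ∈ l

theorem Good.closed (H : Good C v) {F : Submodule ℝ W} {l : Finset (Fin n)} (hl : l ∈ C.lines)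
    {p q r : Fin n} (hp : p ∈ l) (hq : q ∈ l) (hpq : p ≠ q) (hr : r ∈ l) (h1 : v p ∈ F)
    (h2 : v q ∈ F) : v r ∈ F := by
  have h := (H.line l hl p hp q hq hpq r).2 hr
  refine (Submodule.span_le.2 ?_) h
  intro x hx
  rcases hx with rfl | hx
  · exact h1
  · rw [Set.mem_singleton_iff] at hx
    rw [hx]; exact h2

open Classical in
theorem Good.outside (H : Good C v) {F : Submodule ℝ W} {p : Fin n} (hp : v p ∉ F) :
    4 ≤ (univ.filter (fun q => v q ∉ F)).card := by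
  have h := card_of_choose (C := C) p (thr C p) subset_rfl (univ.filter (fun q => v q ∉ F))
    (by simp [hp]) (by
      intro l hl
      obtain ⟨hl1, hl2⟩ := mem_thr.1 hl
      obtain ⟨a, b, ha, hb, hab, rfl⟩ := pts hl1 hl2
      by_contra hcon
      push Not at hcon
      have h1 := hcon a (by simp) ha
      have h2 := hcon b (by simp) hb
      simp only [mem_filter, mem_univ, true_and, not_not] at h1 h2
      exact hp (H.closed hl1 (p := a) (q := b) (by simp) (by simp) hab.symm hl2 h1 h2))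
  rw [thr_card] at h
  exact h

/-- Coefficients on a line. -/
theorem Good.coeff (H : Good C v) {l : Finset (Fin n)} (hl : l ∈ C.lines)
    {p q r : Fin n} (hp : p ∈ l) (hq : q ∈ l) (hr : r ∈ l) (hpq : p ≠ q) (hpr : p ≠ r)
    (hqr : q ≠ r) : ∃ a b : ℝ, a ≠ 0 ∧ b ≠ 0 ∧ v r = a • v p + b • v q := by
  have h := (H.line l hl p hp q hq hpq r).2 hr
  obtain ⟨a, b, hab⟩ := Submodule.mem_span_pair.1 h
  refine ⟨a, b, ?_, ?_, hab.symm⟩
  · rintro rfl
    have h1 := LinearIndependent.pair_iff.1 (H.pair q r hqr) b (-1) (by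
      rw [← hab]; module)
    simpa using h1.2
  · rintro rfl
    have h1 := LinearIndependent.pair_iff.1 (H.pair p r hpr) a (-1) (by
      rw [← hab]; module)
    simpa using h1.2

/-- Three non collinear points two of which are on a line are independent. -/
theorem Good.indep (H : Good C v) {l : Finset (Fin n)} (hl : l ∈ C.lines)
    {p q r : Fin n} (hp : p ∈ l) (hq : q ∈ l) (hpq : p ≠ q) (hr : r ∉ l) :
    LinearIndependent ℝ ![v p, v q, v r] := by
  have h1 : v r ∉ Submodule.span ℝ {v p, v q} := fun h => hr ((H.line l hl p hp q hq hpq r).1 h)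
  rw [Fintype.linearIndependent_iff]
  intro g hg
  simp only [Fin.sum_univ_three, Matrix.cons_val_zero, Matrix.cons_val_one, Matrix.cons_val] at hg
  have h2 : g 2 = 0 := by
    by_contra h2
    apply h1
    have : v r = (-(g 2)⁻¹ * g 0) • v p + (-(g 2)⁻¹ * g 1) • v q := by
      have e : v r = (g 2)⁻¹ • (g 2 • v r) := by rw [smul_smul, inv_mul_cancel₀ h2, one_smul]
      have e2 : g 2 • v r = - (g 0 • v p + g 1 • v q) := by
        rw [eq_neg_iff_add_eq_zero, add_comm]; exact hg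
      rw [e, e2]; module
    rw [this]
    exact Submodule.mem_span_pair.2 ⟨_, _, rfl⟩
  rw [h2, zero_smul, add_zero] at hg
  have h3 := LinearIndependent.pair_iff.1 (H.pair p q hpq) _ _ hg
  intro i
  fin_cases i
  · exact h3.1
  · exact h3.2
  · exact h2

/-- Collinearity in the configuration. -/
def Col (C : Config n) (x y z : Fin n) : Prop := ∃ l ∈ C.lines, x ∈ l ∧ y ∈ l ∧ z ∈ l

theorem Col.s12 {x y z : Fin n} (h : Col C x y z) : Col C y x z := by
  obtain ⟨l, h, a, b, c⟩ := h; exact ⟨l, h, b, a, c⟩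

theorem Col.s23 {x y z : Fin n} (h : Col C x y z) : Col C x z y := by
  obtain ⟨l, h, a, b, c⟩ := h; exact ⟨l, h, a, c, b⟩

theorem eq_triple {l : Finset (Fin n)} (hl : l ∈ C.lines) {x y z : Fin n} (hx : x ∈ l) (hy : y ∈ l)
    (hz : z ∈ l) (hxy : x ≠ y) (hxz : x ≠ z) (hyz : y ≠ z) : l = {x, y, z} := by
  symm
  apply eq_of_subset_of_card_le
  · intro w hw
    simp only [mem_insert, mem_singleton] at hw
    rcases hw with rfl | rfl | rfl <;> assumption
  · rw [C.card_line l hl, card_insert_of_notMem, card_insert_of_notMem, card_singleton]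
    · simpa using hyz
    · simp [hxy, hxz]

theorem Col.uniq {x y z w : Fin n} (h1 : Col C x y z) (h2 : Col C x y w) (hxy : x ≠ y)
    (hxz : x ≠ z) (hyz : y ≠ z) (hxw : x ≠ w) (hyw : y ≠ w) : z = w := by
  obtain ⟨l, hl, a, b, c⟩ := h1
  obtain ⟨m, hm, a', b', c'⟩ := h2
  have := eq_of_two hl hm hxy a b a' b'
  subst this
  have e := eq_triple hl a b c hxy hxz hyz
  rw [e] at c'
  simp only [mem_insert, mem_singleton] at c'
  rcases c' with h | h | h
  · exact absurd h.symm hxw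
  · exact absurd h.symm hyw
  · exact h.symm

theorem Good.not_indep (H : Good C v) {x y z : Fin n} (h : Col C x y z) (hxy : x ≠ y)
    (hxz : x ≠ z) (hyz : y ≠ z) : ¬ LinearIndependent ℝ ![v x, v y, v z] := by
  intro hli
  obtain ⟨l, hl, a, b, c⟩ := h
  obtain ⟨p, q, _, _, e⟩ := H.coeff hl a b c hxy hxz hyz
  have := Fintype.linearIndependent_iff.1 hli ![p, q, -1] (by
    simp only [Fin.sum_univ_three, Matrix.cons_val_zero, Matrix.cons_val_one, Matrix.cons_val]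
    rw [e]; module) 2
  simp at this

theorem not_indep_of_mem {F : Submodule ℝ W} [FiniteDimensional ℝ W] (hF : finrank ℝ F ≤ 2)
    {x y z : W} (hx : x ∈ F) (hy : y ∈ F) (hz : z ∈ F) : ¬ LinearIndependent ℝ ![x, y, z] := by
  intro h
  have h1 : LinearIndependent ℝ (![⟨x, hx⟩, ⟨y, hy⟩, ⟨z, hz⟩] : Fin 3 → F) := by
    apply LinearIndependent.of_comp F.subtype
    convert h using 1
    ext i
    fin_cases i <;> rfl
  have := h1.fintype_card_le_finrank
  simp at this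
  omega

/-- Fano lemma: quadrangle `f, b1, b2, b3` with diagonal points `a1, a2, a3`. -/
theorem Good.fano (H : Good C v) {f a1 b1 a2 b2 a3 b3 : Fin n}
    (l1 : Col C f a1 b1) (l2 : Col C f a2 b2) (l3 : Col C f a3 b3)
    (m1 : Col C a1 b2 b3) (m2 : Col C b1 a2 b3) (m3 : Col C b1 b2 a3)
    (nd : [f, a1, b1, a2, b2, a3, b3].Nodup) :
    LinearIndependent ℝ ![v a1, v a2, v a3] := by
  have hl := nd
  simp only [List.nodup_cons, List.mem_cons, List.not_mem_nil, or_false, not_or, not_false_eq_true,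
    List.nodup_nil, and_true] at hl
  obtain ⟨⟨n1, n2, n3, n4, n5, n6⟩, ⟨n7, n8, n9, n10, n11⟩, ⟨n12, n13, n14, n15⟩,
    ⟨n16, n17, n18⟩, ⟨n19, n20⟩, n21⟩ := hl
  obtain ⟨l1, hl1, l1a, l1b, l1c⟩ := l1
  obtain ⟨l2, hl2, l2a, l2b, l2c⟩ := l2
  obtain ⟨l3, hl3, l3a, l3b, l3c⟩ := l3
  obtain ⟨m1, hm1, m1a, m1b, m1c⟩ := m1
  obtain ⟨m2, hm2, m2a, m2b, m2c⟩ := m2
  obtain ⟨m3, hm3, m3a, m3b, m3c⟩ := m3
  obtain ⟨p1, q1, np1, nq1, e1⟩ := H.coeff hl1 l1a l1c l1b n2 n1 (Ne.symm n7)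
  obtain ⟨p2, q2, np2, nq2, e2⟩ := H.coeff hl2 l2a l2c l2b n4 n3 (Ne.symm n16)
  obtain ⟨p3, q3, np3, nq3, e3⟩ := H.coeff hl3 l3a l3c l3b n6 n5 (Ne.symm n21)
  obtain ⟨r1, s1, nr1, ns1, e4⟩ := H.coeff hm1 m1b m1c m1a n20 (Ne.symm n9) (Ne.symm n11)
  obtain ⟨r2, s2, nr2, ns2, e5⟩ := H.coeff hm2 m2a m2c m2b n15 n12 (Ne.symm n18)
  obtain ⟨r3, s3, nr3, ns3, e6⟩ := H.coeff hm3 m3a m3b m3c n13 n14 n19
  have hind : LinearIndependent ℝ ![v f, v b1, v b2] := by
    refine H.indep hl1 l1a l1c n2 ?_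
    rw [eq_triple hl1 l1a l1b l1c n1 n2 n7]
    simp only [mem_insert, mem_singleton, not_or]
    exact ⟨Ne.symm n4, Ne.symm n9, Ne.symm n13⟩
  exact fano_alg (v f) (v b1) (v b2) (v b3) (v a1) (v a2) (v a3) hind p1 q1 p2 q2 p3 q3 r1 s1 r2 s2
    r3 s3 np1 nq1 nq3 nr1 ns1 ns2 e1 e2 e3 e4 e5 e6

theorem joined (x : Fin n) (Q : Finset (Fin n)) (hQ : Q.card ≤ 7)
    (h : ∀ l ∈ C.lines, x ∈ l → l ⊆ Q) : ∀ y ∈ Q, y ≠ x → ∃ l ∈ C.lines, x ∈ l ∧ y ∈ l := by
  intro y hy hyx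
  by_contra hcon
  push Not at hcon
  have h2 : ∀ l ∈ C.lines, x ∈ l → l ⊆ Q.erase y := by
    intro l hl hx z hz
    rw [mem_erase]
    exact ⟨fun e => hcon l hl hx (e ▸ hz), h l hl hx hz⟩
  have := star_card x (Q.erase y) h2
  rw [card_erase_of_mem hy] at this
  omega

theorem tri {f c d x y : Fin n} {A B m : Finset (Fin n)} (hA : A ∈ C.lines) (hB : B ∈ C.lines)
    (fA : f ∈ A) (fB : f ∈ B) (xA : x ∈ A) (xf : x ≠ f) (yB : y ∈ B) (yf : y ≠ f) (hAB : A ≠ B)
    (hm : m ∈ C.lines) (xm : x ∈ m) (ym : y ∈ m)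
    (hsub : ∀ z ∈ m, z ∈ A ∨ z ∈ B ∨ z = c ∨ z = d) : Col C x y c ∨ Col C x y d := by
  have hxy : x ≠ y := by
    rintro rfl
    exact hAB (eq_of_two hA hB xf xA fA yB fB)
  obtain ⟨r, hrx, hry, e⟩ := third hm xm ym hxy
  have hr : r ∈ m := by rw [e]; simp
  rcases hsub r hr with h | h | rfl | rfl
  · exfalso
    have := eq_of_two hm hA hrx hr xm h xA
    subst this
    exact hAB (eq_of_two hA hB yf ym fA yB fB)
  · exfalso
    have := eq_of_two hm hB hry hr ym h yB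
    subst this
    exact hAB (eq_of_two hA hB xf xA fA xm fB)
  · exact Or.inl ⟨m, hm, xm, ym, hr⟩
  · exact Or.inr ⟨m, hm, xm, ym, hr⟩

theorem Good.fano_star [FiniteDimensional ℝ W] (H : Good C v) {f a1 b1 a2 b2 a3 b3 : Fin n}
    {l1 l2 l3 : Finset (Fin n)} (hl1 : l1 ∈ C.lines) (hl2 : l2 ∈ C.lines) (hl3 : l3 ∈ C.lines)
    (e1 : l1 = {f, a1, b1}) (e2 : l2 = {f, a2, b2}) (e3 : l3 = {f, a3, b3})
    (nd : [f, a1, b1, a2, b2, a3, b3].Nodup) (Q : Finset (Fin n)) (hQ : Q.card ≤ 7)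
    (hQ' : Q = {f, a1, b1, a2, b2, a3, b3})
    (F : Submodule ℝ W) (hF : finrank ℝ F ≤ 2)
    (ha1 : ∀ l ∈ C.lines, a1 ∈ l → l ⊆ Q) (ha2 : ∀ l ∈ C.lines, a2 ∈ l → l ⊆ Q)
    (ha3 : ∀ l ∈ C.lines, a3 ∈ l → l ⊆ Q)
    (hb1 : v b1 ∉ F → ∀ l ∈ C.lines, b1 ∈ l → l ⊆ Q)
    (hb2 : v b2 ∉ F → ∀ l ∈ C.lines, b2 ∈ l → l ⊆ Q)
    (hb3 : v b3 ∉ F → ∀ l ∈ C.lines, b3 ∈ l → l ⊆ Q) : False := by
  have hl := nd
  simp only [List.nodup_cons, List.mem_cons, List.not_mem_nil, or_false, not_or, not_false_eq_true,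
    List.nodup_nil, and_true] at hl
  obtain ⟨⟨n1, n2, n3, n4, n5, n6⟩, ⟨n7, n8, n9, n10, n11⟩, ⟨n12, n13, n14, n15⟩,
    ⟨n16, n17, n18⟩, ⟨n19, n20⟩, n21⟩ := hl
  have l12 : l1 ≠ l2 := by
    intro h
    have : a2 ∈ l1 := by rw [h, e2]; simp
    rw [e1] at this
    simp only [mem_insert, mem_singleton] at this
    rcases this with h | h | h
    · exact n3 h.symm
    · exact n8 h.symm
    · exact n12 h.symm
  have l13 : l1 ≠ l3 := by
    intro h
    have : a3 ∈ l1 := by rw [h, e3]; simp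
    rw [e1] at this
    simp only [mem_insert, mem_singleton] at this
    rcases this with h | h | h
    · exact n5 h.symm
    · exact n10 h.symm
    · exact n14 h.symm
  have f1 : f ∈ l1 := by rw [e1]; simp
  have f2 : f ∈ l2 := by rw [e2]; simp
  have f3 : f ∈ l3 := by rw [e3]; simp
  have A1 : a1 ∈ l1 := by rw [e1]; simp
  have A2 : a2 ∈ l2 := by rw [e2]; simp
  have A3 : a3 ∈ l3 := by rw [e3]; simp
  have B1 : b1 ∈ l1 := by rw [e1]; simp
  have B2 : b2 ∈ l2 := by rw [e2]; simp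
  have B3 : b3 ∈ l3 := by rw [e3]; simp
  have sub12 : ∀ m : Finset (Fin n), m ⊆ Q → ∀ z ∈ m, z ∈ l1 ∨ z ∈ l2 ∨ z = a3 ∨ z = b3 := by
    intro m hm z hz
    have := hm hz
    rw [hQ'] at this
    simp only [mem_insert, mem_singleton] at this
    rcases this with h | h | h | h | h | h | h
    · left; rw [h]; exact f1
    · left; rw [h]; exact A1
    · left; rw [h]; exact B1
    · right; left; rw [h]; exact A2
    · right; left; rw [h]; exact B2
    · right; right; left; exact h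
    · right; right; right; exact h
  have sub13 : ∀ m : Finset (Fin n), m ⊆ Q → ∀ z ∈ m, z ∈ l1 ∨ z ∈ l3 ∨ z = a2 ∨ z = b2 := by
    intro m hm z hz
    have := hm hz
    rw [hQ'] at this
    simp only [mem_insert, mem_singleton] at this
    rcases this with h | h | h | h | h | h | h
    · left; rw [h]; exact f1
    · left; rw [h]; exact A1
    · left; rw [h]; exact B1
    · right; right; left; exact h
    · right; right; right; exact h
    · right; left; rw [h]; exact A3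
    · right; left; rw [h]; exact B3
  have mem : a1 ∈ Q ∧ b1 ∈ Q ∧ a2 ∈ Q ∧ b2 ∈ Q ∧ a3 ∈ Q ∧ b3 ∈ Q := by
    rw [hQ']; simp
  obtain ⟨ma1, mb1, ma2, mb2, ma3, mb3⟩ := mem
  -- joining statements
  have J12 : ∀ x ∈ l1, ∀ y ∈ l2, x ≠ f → y ≠ f → y ∈ Q → (∀ l ∈ C.lines, x ∈ l → l ⊆ Q) →
      Col C x y a3 ∨ Col C x y b3 := by
    intro x hx y hy hxf hyf hyQ hcl
    have hxy : y ≠ x := by
      rintro rfl
      exact l12 (eq_of_two hl1 hl2 hxf hx f1 hy f2)
    obtain ⟨m, hm, xm, ym⟩ := joined x Q hQ hcl y hyQ hxy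
    exact tri hl1 hl2 f1 f2 hx hxf hy hyf l12 hm xm ym (sub12 m (hcl m hm xm))
  have J12' : ∀ x ∈ l1, ∀ y ∈ l2, x ≠ f → y ≠ f → x ∈ Q → (∀ l ∈ C.lines, y ∈ l → l ⊆ Q) →
      Col C x y a3 ∨ Col C x y b3 := by
    intro x hx y hy hxf hyf hyQ hcl
    have hxy : x ≠ y := by
      rintro rfl
      exact l12 (eq_of_two hl1 hl2 hxf hx f1 hy f2)
    obtain ⟨m, hm, ym, xm⟩ := joined y Q hQ hcl x hyQ hxy
    exact tri hl1 hl2 f1 f2 hx hxf hy hyf l12 hm xm ym (sub12 m (hcl m hm ym))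
  have J13' : ∀ x ∈ l1, ∀ y ∈ l3, x ≠ f → y ≠ f → x ∈ Q → (∀ l ∈ C.lines, y ∈ l → l ⊆ Q) →
      Col C x y a2 ∨ Col C x y b2 := by
    intro x hx y hy hxf hyf hyQ hcl
    have hxy : x ≠ y := by
      rintro rfl
      exact l13 (eq_of_two hl1 hl3 hxf hx f1 hy f3)
    obtain ⟨m, hm, ym, xm⟩ := joined y Q hQ hcl x hyQ hxy
    exact tri hl1 hl3 f1 f3 hx hxf hy hyf l13 hm xm ym (sub13 m (hcl m hm ym))
  have C1 : Col C f a1 b1 := ⟨l1, hl1, f1, A1, B1⟩
  have C2 : Col C f a2 b2 := ⟨l2, hl2, f2, A2, B2⟩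
  have C3 : Col C f a3 b3 := ⟨l3, hl3, f3, A3, B3⟩
  rcases J12 a1 A1 a2 A2 (Ne.symm n1) (Ne.symm n3) ma2 ha1 with h | h
  · -- case alpha
    have c1 : Col C a1 b2 b3 := by
      rcases J12 a1 A1 b2 B2 (Ne.symm n1) (Ne.symm n4) mb2 ha1 with h' | h'
      · exact absurd (h.s23.uniq h'.s23 n10 n8 (Ne.symm n17) n9 (Ne.symm n19)) n16
      · exact h'
    have c2 : Col C b1 a2 b3 := by
      rcases J12' b1 B1 a2 A2 (Ne.symm n2) (Ne.symm n3) mb1 ha2 with h' | h'
      · exact absurd (h.s12.s23.uniq h'.s12.s23 n17 (Ne.symm n8) (Ne.symm n10) (Ne.symm n12)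
          (Ne.symm n14)) n7
      · exact h'
    have c3 : Col C b1 b2 a3 := by
      rcases J13' b1 B1 a3 A3 (Ne.symm n2) (Ne.symm n5) mb1 ha3 with h' | h'
      · exact absurd (h.s12.s23.uniq h'.s23.s12.s23 n17 (Ne.symm n8) (Ne.symm n10) (Ne.symm n12)
          (Ne.symm n14)) n7
      · exact h'.s23
    exact H.not_indep h n8 n10 n17 (H.fano C1 C2 C3 c1 c2 c3 nd)
  · -- case beta
    have c1 : Col C a1 b2 a3 := by
      rcases J12 a1 A1 b2 B2 (Ne.symm n1) (Ne.symm n4) mb2 ha1 with h' | h'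
      · exact h'
      · exact absurd (h.s23.uniq h'.s23 n11 n8 (Ne.symm n18) n9 (Ne.symm n20)) n16
    have c2 : Col C b1 a2 a3 := by
      rcases J12' b1 B1 a2 A2 (Ne.symm n2) (Ne.symm n3) mb1 ha2 with h' | h'
      · exact h'
      · exact absurd (h.s12.s23.uniq h'.s12.s23 n18 (Ne.symm n8) (Ne.symm n11) (Ne.symm n12)
          (Ne.symm n15)) n7
    have nd' : [f, b1, a1, b2, a2, b3, a3].Nodup := by
      simp only [List.nodup_cons, List.mem_cons, List.not_mem_nil, or_false, not_or,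
        not_false_eq_true, List.nodup_nil, and_true]
      exact ⟨⟨n2, n1, n4, n3, n6, n5⟩, ⟨Ne.symm n7, n13, n12, n15, n14⟩, ⟨n9, n8, n11, n10⟩,
        ⟨Ne.symm n16, n20, n19⟩, ⟨n18, n17⟩, Ne.symm n21⟩
    have hfano := H.fano C1.s23 C2.s23 C3.s23 (a1 := b1) (b1 := a1) (a2 := b2) (b2 := a2)
      (a3 := b3) (b3 := a3) c2 c1 h nd'
    have hcol : Col C b1 b2 a3 ∨ Col C b1 b2 b3 → False := by
      intro h'
      rcases h' with h' | h'
      · exact absurd (c2.s23.uniq h'.s23 n14 n12 (Ne.symm n17) n13 (Ne.symm n19)) n16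
      · exact H.not_indep h' n13 n15 n20 hfano
    by_cases k1 : v b1 ∈ F
    swap
    · exact hcol (J12 b1 B1 b2 B2 (Ne.symm n2) (Ne.symm n4) mb2 (hb1 k1))
    by_cases k2 : v b2 ∈ F
    swap
    · exact hcol (J12' b1 B1 b2 B2 (Ne.symm n2) (Ne.symm n4) mb1 (hb2 k2))
    by_cases k3 : v b3 ∈ F
    swap
    · rcases J13' b1 B1 b3 B3 (Ne.symm n2) (Ne.symm n6) mb1 (hb3 k3) with h' | h'
      · exact absurd (c2.uniq h'.s23 n12 n14 n17 n15 n18) n21
      · exact H.not_indep h'.s23 n13 n15 n20 hfano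
    exact not_indep_of_mem hF k1 k2 k3 hfano

end geometry

section main

variable {n : ℕ} {C : Config n} {W : Type*} [AddCommGroup W] [Module ℝ W]
  {v : Fin n → W}

/-- Span of the vectors of the points of `Q`. -/
def R (v : Fin n → W) (Q : Finset (Fin n)) : Submodule ℝ W := Submodule.span ℝ (v '' Q)

theorem mem_R {Q : Finset (Fin n)} {p : Fin n} (hp : p ∈ Q) : v p ∈ R v Q :=
  Submodule.subset_span ⟨p, hp, rfl⟩

theorem R_le {Q : Finset (Fin n)} {F : Submodule ℝ W} (h : ∀ p ∈ Q, v p ∈ F) : R v Q ≤ F := by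
  apply Submodule.span_le.2
  rintro _ ⟨p, hp, rfl⟩
  exact h p hp

theorem finrank_R_le (Q : Finset (Fin n)) : finrank ℝ (R v Q) ≤ Q.card := by
  classical
  unfold R
  rw [← Finset.coe_image]
  exact (finrank_span_finset_le_card _).trans card_image_le

theorem Good.R_erase (H : Good C v) {Q l : Finset (Fin n)} {q : Fin n} (hl : l ∈ C.lines)
    (hlQ : l ⊆ Q) (hq : q ∈ l) : R v Q ≤ R v (Q.erase q) := by
  apply R_le
  intro p hp
  by_cases hpq : p = q
  · subst hpq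
    obtain ⟨a, b, ha, hb, hab, e⟩ := pts hl hq
    have hal : a ∈ l := by rw [e]; simp
    have hbl : b ∈ l := by rw [e]; simp
    exact H.closed hl hal hbl (Ne.symm hab) hq (mem_R (mem_erase.2 ⟨ha, hlQ hal⟩))
      (mem_R (mem_erase.2 ⟨hb, hlQ hbl⟩))
  · exact mem_R (mem_erase.2 ⟨hpq, hp⟩)

theorem exists_notMem2 {l l1 l2 : Finset (Fin n)} (hl : l ∈ C.lines) (hl1 : l1 ∈ C.lines)
    (hl2 : l2 ∈ C.lines) (h1 : l ≠ l1) (h2 : l ≠ l2) : ∃ q ∈ l, q ∉ l1 ∧ q ∉ l2 := by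
  by_contra hcon
  push Not at hcon
  have hsub : l ⊆ (l ∩ l1) ∪ (l ∩ l2) := by
    intro q hq
    by_cases h : q ∈ l1
    · simp [hq, h]
    · simp [hq, hcon q hq h]
  have := (card_le_card hsub).trans (card_union_le _ _)
  rw [C.card_line l hl] at this
  have a1 := inter_le_one hl hl1 h1
  have a2 := inter_le_one hl hl2 h2
  omega

variable [FiniteDimensional ℝ W]

theorem Good.rank3 (H : Good C v) {Q l1 l2 l3 : Finset (Fin n)} (hl1 : l1 ∈ C.lines)
    (hl2 : l2 ∈ C.lines) (hl3 : l3 ∈ C.lines) (h12 : l1 ≠ l2) (h13 : l1 ≠ l3) (h23 : l2 ≠ l3)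
    (s1 : l1 ⊆ Q) (s2 : l2 ⊆ Q) (s3 : l3 ⊆ Q) : finrank ℝ (R v Q) + 3 ≤ Q.card := by
  obtain ⟨q3, hq3, n31, n32⟩ := exists_notMem2 hl3 hl1 hl2 h13.symm h23.symm
  obtain ⟨q2, hq2, n21, _⟩ := exists_notMem2 hl2 hl1 hl1 h12.symm h12.symm
  obtain ⟨q1, hq1, _, _⟩ := exists_notMem2 hl1 hl2 hl2 h12 h12
  have t2 : l2 ⊆ Q.erase q3 := fun x hx => mem_erase.2 ⟨fun h => n32 (h ▸ hx), s2 hx⟩
  have t1 : l1 ⊆ (Q.erase q3).erase q2 := fun x hx =>
    mem_erase.2 ⟨fun h => n21 (h ▸ hx), mem_erase.2 ⟨fun h => n31 (h ▸ hx), s1 hx⟩⟩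
  have r3 := Submodule.finrank_mono (H.R_erase hl3 s3 hq3)
  have r2 := Submodule.finrank_mono (H.R_erase hl2 t2 hq2)
  have r1 := Submodule.finrank_mono (H.R_erase hl1 t1 hq1)
  have c := finrank_R_le (v := v) (((Q.erase q3).erase q2).erase q1)
  have c3 := card_erase_add_one (s3 hq3)
  have c2 := card_erase_add_one (t2 hq2)
  have c1 := card_erase_add_one (t1 hq1)
  omega

theorem Good.rank4 (H : Good C v) {Q l1 l2 l3 l4 : Finset (Fin n)} {q : Fin n}
    (hl1 : l1 ∈ C.lines)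
    (hl2 : l2 ∈ C.lines) (hl3 : l3 ∈ C.lines) (hl4 : l4 ∈ C.lines) (h12 : l1 ≠ l2) (h13 : l1 ≠ l3)
    (h23 : l2 ≠ l3) (s1 : l1 ⊆ Q) (s2 : l2 ⊆ Q) (s3 : l3 ⊆ Q) (s4 : l4 ⊆ Q) (hq : q ∈ l4)
    (n1 : q ∉ l1) (n2 : q ∉ l2) (n3 : q ∉ l3) : finrank ℝ (R v Q) + 4 ≤ Q.card := by
  have r4 := Submodule.finrank_mono (H.R_erase hl4 s4 hq)
  have t : ∀ l : Finset (Fin n), q ∉ l → l ⊆ Q → l ⊆ Q.erase q := fun l hn hs x hx =>
    mem_erase.2 ⟨fun h => hn (h ▸ hx), hs hx⟩
  have r3 := H.rank3 hl1 hl2 hl3 h12 h13 h23 (t l1 n1 s1) (t l2 n2 s2) (t l3 n3 s3)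
  have c4 := card_erase_add_one (s4 hq)
  omega

/-- The star of a point, labelled, with a chosen property. -/
theorem star_pts (p : Fin n) (P : Fin n → Prop)
    (hP : ∀ l ∈ C.lines, p ∈ l → ∃ a ∈ l, a ≠ p ∧ P a) :
    ∃ (k1 k2 k3 : Finset (Fin n)) (a1 b1 a2 b2 a3 b3 : Fin n),
      k1 ∈ C.lines ∧ k2 ∈ C.lines ∧ k3 ∈ C.lines ∧ k1 = {p, a1, b1} ∧ k2 = {p, a2, b2} ∧
      k3 = {p, a3, b3} ∧ [p, a1, b1, a2, b2, a3, b3].Nodup ∧ P a1 ∧ P a2 ∧ P a3 ∧
      ∀ l ∈ C.lines, p ∈ l → l = k1 ∨ l = k2 ∨ l = k3 := by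
  obtain ⟨k1, k2, k3, h12, h13, h23, e⟩ := card_eq_three.1 (thr_card C p)
  have m1 : k1 ∈ thr C p := by rw [e]; simp
  have m2 : k2 ∈ thr C p := by rw [e]; simp
  have m3 : k3 ∈ thr C p := by rw [e]; simp
  rw [mem_thr] at m1 m2 m3
  obtain ⟨a1, ha1, na1, Pa1⟩ := hP k1 m1.1 m1.2
  obtain ⟨a2, ha2, na2, Pa2⟩ := hP k2 m2.1 m2.2
  obtain ⟨a3, ha3, na3, Pa3⟩ := hP k3 m3.1 m3.2
  obtain ⟨b1, nb1, nb1', e1⟩ := third m1.1 m1.2 ha1 na1.symm
  obtain ⟨b2, nb2, nb2', e2⟩ := third m2.1 m2.2 ha2 na2.symm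
  obtain ⟨b3, nb3, nb3', e3⟩ := third m3.1 m3.2 ha3 na3.symm
  have hb1 : b1 ∈ k1 := by rw [e1]; simp
  have hb2 : b2 ∈ k2 := by rw [e2]; simp
  have hb3 : b3 ∈ k3 := by rw [e3]; simp
  refine ⟨k1, k2, k3, a1, b1, a2, b2, a3, b3, m1.1, m2.1, m3.1, e1, e2, e3, ?_, Pa1, Pa2, Pa3, ?_⟩
  · have d12 : ∀ x ∈ k1, ∀ y ∈ k2, x ≠ p → x ≠ y := by
      rintro x hx y hy hxp rfl
      exact h12 (eq_of_two m1.1 m2.1 hxp hx m1.2 hy m2.2)
    have d13 : ∀ x ∈ k1, ∀ y ∈ k3, x ≠ p → x ≠ y := by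
      rintro x hx y hy hxp rfl
      exact h13 (eq_of_two m1.1 m3.1 hxp hx m1.2 hy m3.2)
    have d23 : ∀ x ∈ k2, ∀ y ∈ k3, x ≠ p → x ≠ y := by
      rintro x hx y hy hxp rfl
      exact h23 (eq_of_two m2.1 m3.1 hxp hx m2.2 hy m3.2)
    simp only [List.nodup_cons, List.mem_cons, List.not_mem_nil, or_false, not_or,
      not_false_eq_true, List.nodup_nil, and_true]
    exact ⟨⟨na1.symm, nb1.symm, na2.symm, nb2.symm, na3.symm, nb3.symm⟩,
      ⟨nb1'.symm, d12 _ ha1 _ ha2 na1, d12 _ ha1 _ hb2 na1, d13 _ ha1 _ ha3 na1,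
        d13 _ ha1 _ hb3 na1⟩,
      ⟨d12 _ hb1 _ ha2 nb1, d12 _ hb1 _ hb2 nb1, d13 _ hb1 _ ha3 nb1, d13 _ hb1 _ hb3 nb1⟩,
      ⟨nb2'.symm, d23 _ ha2 _ ha3 na2, d23 _ ha2 _ hb3 na2⟩,
      ⟨d23 _ hb2 _ ha3 nb2, d23 _ hb2 _ hb3 nb2⟩, nb3'.symm⟩
  · intro l hl hp
    have : l ∈ thr C p := mem_thr.2 ⟨hl, hp⟩
    rw [e] at this
    simpa using this

theorem card_of_nodup7 {f a1 b1 a2 b2 a3 b3 : Fin n} (nd : [f, a1, b1, a2, b2, a3, b3].Nodup) :
    ({f, a1, b1, a2, b2, a3, b3} : Finset (Fin n)).card = 7 := by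
  have h := List.toFinset_card_of_nodup nd
  have e : [f, a1, b1, a2, b2, a3, b3].toFinset = ({f, a1, b1, a2, b2, a3, b3} : Finset (Fin n)) := by
    ext x; simp
  rw [e] at h
  exact h

/-- Context of the proof: a subspace `E` of rank at most three with at least six points and three
lines. -/
structure Ctx (C : Config n) (v : Fin n → W) (E : Submodule ℝ W) (X Z : Finset (Fin n)) :
    Prop where
  good : Good C v
  rank5 : 5 ≤ finrank ℝ (Submodule.span ℝ (Set.range v))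
  rankE : finrank ℝ E ≤ 3
  memX : ∀ p, p ∈ X ↔ v p ∈ E
  memZ : ∀ p, p ∈ Z ↔ v p ∉ E
  card : X.card + Z.card = n

variable {E : Submodule ℝ W} {X Z : Finset (Fin n)}

theorem Ctx.exists_out (c : Ctx C v E X Z) {F : Submodule ℝ W} (hF : finrank ℝ F ≤ 4) :
    ∃ p, v p ∉ F := by
  by_contra hcon
  push Not at hcon
  have : Submodule.span ℝ (Set.range v) ≤ F := by
    apply Submodule.span_le.2
    rintro _ ⟨p, rfl⟩
    exact hcon p
  have := Submodule.finrank_mono this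
  have := c.rank5
  omega

theorem Ctx.rankF (c : Ctx C v E X Z) (z : Fin n) :
    finrank ℝ (E ⊔ Submodule.span ℝ {v z} : Submodule ℝ W) ≤ 4 := by
  have h1 := Submodule.finrank_add_le_finrank_add_finrank E (Submodule.span ℝ {v z})
  have h2 : finrank ℝ (Submodule.span ℝ {v z}) ≤ 1 := by
    have := finrank_span_le_card (R := ℝ) ({v z} : Set W)
    simpa using this
  have := c.rankE
  omega

omit [FiniteDimensional ℝ W] in
theorem Ctx.le {F : Submodule ℝ W} {z : Fin n} (hE : E ≤ F) (hz : v z ∈ F) :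
    E ⊔ Submodule.span ℝ {v z} ≤ F := by
  apply sup_le hE
  apply Submodule.span_le.2
  intro x hx
  rw [Set.mem_singleton_iff] at hx
  rw [hx]; exact hz

omit [FiniteDimensional ℝ W] in
theorem Ctx.self_mem (z : Fin n) : v z ∈ E ⊔ Submodule.span ℝ {v z} :=
  Submodule.mem_sup_right (Submodule.mem_span_singleton_self _)

omit [FiniteDimensional ℝ W] in
/-- A line through `z ∈ Z` which meets `X`. -/
theorem Ctx.aline (c : Ctx C v E X Z) {l : Finset (Fin n)} (hl : l ∈ C.lines) {z : Fin n}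
    (hz : z ∈ l) (hzZ : z ∈ Z) (hn : ¬ l ⊆ Z) :
    ∃ z' x, z' ≠ z ∧ x ≠ z ∧ x ≠ z' ∧ l = {z, z', x} ∧ z' ∈ Z ∧ x ∈ X ∧
      v z' ∈ E ⊔ Submodule.span ℝ {v z} := by
  obtain ⟨x, hx, hxZ⟩ := not_subset.1 hn
  have hxE : v x ∈ E := by
    by_contra h; exact hxZ ((c.memZ x).2 h)
  have hzE : v z ∉ E := (c.memZ z).1 hzZ
  have hxz : x ≠ z := by rintro rfl; exact hzE hxE
  obtain ⟨z', h1, h2, e⟩ := third hl hz hx hxz.symm
  have hz' : z' ∈ l := by rw [e]; simp
  refine ⟨z', x, h1, hxz, h2.symm, ?_, ?_, (c.memX x).2 hxE, ?_⟩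
  · rw [e]; ext w; simp only [mem_insert, mem_singleton]; tauto
  · rw [c.memZ]
    intro h
    exact hzE (c.good.closed hl hx hz' h2.symm hz hxE h)
  · exact c.good.closed hl hz hx hxz.symm hz' (Ctx.self_mem z) (Submodule.mem_sup_left hxE)

/-- Lines inside `Z` through `z`. -/
def dd (C : Config n) (Z : Finset (Fin n)) (z : Fin n) : ℕ :=
  ((C.lines.filter (fun l => l ⊆ Z)).filter (fun l => z ∈ l)).card

theorem dd_eq (z : Fin n) : dd C Z z = ((thr C z).filter (fun l => l ⊆ Z)).card := by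
  unfold dd thr
  rw [filter_comm]

theorem dd_add (z : Fin n) : dd C Z z + ((thr C z).filter (fun l => ¬ l ⊆ Z)).card = 3 := by
  rw [dd_eq, card_filter_add_card_filter_not, thr_card]

theorem dd_le (z : Fin n) : dd C Z z ≤ 3 := by
  have := dd_add (C := C) (Z := Z) z
  omega

theorem dd_three {z : Fin n} (h : dd C Z z = 3) : 7 ≤ Z.card := by
  have h1 := dd_add (C := C) (Z := Z) z
  have h2 : ((thr C z).filter (fun l => ¬ l ⊆ Z)) = ∅ := by
    rw [← card_eq_zero]; omega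
  apply star_card (C := C) z Z
  intro l hl hz
  by_contra hn
  have : l ∈ (thr C z).filter (fun l => ¬ l ⊆ Z) := mem_filter.2 ⟨mem_thr.2 ⟨hl, hz⟩, hn⟩
  rw [h2] at this
  simp at this

theorem sum_dd : ∑ z ∈ Z, dd C Z z = 3 * (C.lines.filter (fun l => l ⊆ Z)).card := by
  unfold dd
  have h : ∀ l ∈ C.lines.filter (fun l => l ⊆ Z), (l ∩ Z).card = 3 := by
    intro l hl
    rw [mem_filter] at hl
    rw [inter_eq_left.2 hl.2, C.card_line l hl.1]
  rw [double_count, sum_congr rfl h, sum_const, smul_eq_mul, mul_comm]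

open Classical in
theorem Ctx.key (c : Ctx C v E X Z) {z : Fin n} (hz : z ∈ Z) : 8 ≤ Z.card + dd C Z z := by
  set F := E ⊔ Submodule.span ℝ {v z} with hF
  obtain ⟨p0, hp0⟩ := c.exists_out (c.rankF z)
  have hY := c.good.outside hp0
  set Y := univ.filter (fun q => v q ∉ F) with hYdef
  set K := Z.filter (fun q => v q ∈ F) with hKdef
  have hYZ : Z.filter (fun q => ¬ v q ∈ F) = Y := by
    ext q
    simp only [hYdef, mem_filter, mem_univ, true_and, c.memZ]
    constructor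
    · exact fun h => h.2
    · exact fun h => ⟨fun h' => h (Submodule.mem_sup_left h'), h⟩
  have hKY : K.card + Y.card = Z.card := by
    rw [← hYZ, hKdef]
    exact card_filter_add_card_filter_not _
  have hT := card_of_choose (C := C) z ((thr C z).filter (fun l => ¬ l ⊆ Z)) (filter_subset _ _) K
    (mem_filter.2 ⟨hz, Ctx.self_mem z⟩) (by
      intro l hl
      rw [mem_filter, mem_thr] at hl
      obtain ⟨z', x, h1, _, _, e, h2, _, h3⟩ := c.aline hl.1.1 hl.1.2 hz hl.2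
      exact ⟨z', by rw [e]; simp, h1, mem_filter.2 ⟨h2, h3⟩⟩)
  have := dd_add (C := C) (Z := Z) z
  omega

omit [FiniteDimensional ℝ W] in
/-- Points not in the span of `Z` have all their lines in `X`. -/
theorem Ctx.inX (c : Ctx C v E X Z) {f : Fin n} (hf : v f ∉ R v Z) :
    f ∈ X ∧ ∀ l ∈ C.lines, f ∈ l → l ⊆ X := by
  have hfE : v f ∈ E := by
    by_contra h
    exact hf (mem_R ((c.memZ f).2 h))
  refine ⟨(c.memX f).2 hfE, ?_⟩
  intro l hl hfl g hg
  rw [c.memX]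
  by_contra hgE
  have hfg : f ≠ g := by rintro rfl; exact hgE hfE
  obtain ⟨r, hrf, hrg, e⟩ := third hl hfl hg hfg
  have hr : r ∈ l := by rw [e]; simp
  by_cases hrE : v r ∈ E
  · exact hgE (c.good.closed hl hfl hr hrf.symm hg hfE hrE)
  · exact hf (c.good.closed hl hg hr hrg.symm hfl (mem_R ((c.memZ g).2 hgE))
      (mem_R ((c.memZ r).2 hrE)))

theorem Ctx.inf_rank (c : Ctx C v E X Z) :
    5 + finrank ℝ (E ⊓ R v Z : Submodule ℝ W) ≤ 3 + finrank ℝ (R v Z) := by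
  have h1 := Submodule.finrank_sup_add_finrank_inf_eq E (R v Z)
  have h2 : Submodule.span ℝ (Set.range v) ≤ E ⊔ R v Z := by
    apply Submodule.span_le.2
    rintro _ ⟨p, rfl⟩
    by_cases h : v p ∈ E
    · exact Submodule.mem_sup_left h
    · exact Submodule.mem_sup_right (mem_R ((c.memZ p).2 h))
  have h3 := Submodule.finrank_mono h2
  have h4 := c.rank5
  have h5 := c.rankE
  omega

theorem Ctx.case7 (c : Ctx C v E X Z) (hn : n ≤ 14) (hZ : Z.card = 7)
    (hS : finrank ℝ (R v Z) ≤ 4) : False := by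
  obtain ⟨f, hf⟩ := c.exists_out hS
  obtain ⟨hfX, hfl⟩ := c.inX hf
  have h7 := star_card (C := C) f X hfl
  have hX7 : X.card = 7 := by have := c.card; omega
  obtain ⟨k1, k2, k3, a1, b1, a2, b2, a3, b3, hk1, hk2, hk3, e1, e2, e3, nd, P1, P2, P3, _⟩ :=
    star_pts (C := C) f (fun a => v a ∉ R v Z) (by
      intro l hl hfl'
      obtain ⟨a, b, ha, hb, hab, e⟩ := pts hl hfl'
      have hal : a ∈ l := by rw [e]; simp
      have hbl : b ∈ l := by rw [e]; simp
      by_cases h : v a ∈ R v Z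
      · refine ⟨b, hbl, hb, fun h' => hf (c.good.closed hl hal hbl hab.symm hfl' h h')⟩
      · exact ⟨a, hal, ha, h⟩)
  have hsub : ({f, a1, b1, a2, b2, a3, b3} : Finset (Fin n)) ⊆ X := by
    have s1 := hfl k1 hk1 (by rw [e1]; simp)
    have s2 := hfl k2 hk2 (by rw [e2]; simp)
    have s3 := hfl k3 hk3 (by rw [e3]; simp)
    intro x hx
    simp only [mem_insert, mem_singleton] at hx
    rcases hx with h | h | h | h | h | h | h <;> rw [h]
    · exact hfX
    · exact s1 (by rw [e1]; simp)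
    · exact s1 (by rw [e1]; simp)
    · exact s2 (by rw [e2]; simp)
    · exact s2 (by rw [e2]; simp)
    · exact s3 (by rw [e3]; simp)
    · exact s3 (by rw [e3]; simp)
  have hXeq : X = {f, a1, b1, a2, b2, a3, b3} := by
    symm
    apply eq_of_subset_of_card_le hsub
    rw [card_of_nodup7 nd, hX7]
  have hF : finrank ℝ (E ⊓ R v Z : Submodule ℝ W) ≤ 2 := by
    have := c.inf_rank
    omega
  have hb : ∀ b ∈ X, v b ∉ E ⊓ R v Z → ∀ l ∈ C.lines, b ∈ l → l ⊆ X := by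
    intro b hbX hb
    refine (c.inX (fun h => hb ⟨(c.memX b).1 hbX, h⟩)).2
  exact c.good.fano_star hk1 hk2 hk3 e1 e2 e3 nd X hX7.le hXeq (E ⊓ R v Z) hF (c.inX P1).2
    (c.inX P2).2 (c.inX P3).2 (hb b1 (by rw [hXeq]; simp)) (hb b2 (by rw [hXeq]; simp))
    (hb b3 (by rw [hXeq]; simp))

theorem pair_ne {F : Submodule ℝ W} (H : Good C v) (hF : finrank ℝ F ≤ 1) {x y : Fin n}
    (hx : v x ∈ F) (hy : v y ∈ F) : x = y := by
  by_contra hxy
  have h1 : LinearIndependent ℝ (![⟨v x, hx⟩, ⟨v y, hy⟩] : Fin 2 → F) := by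
    apply LinearIndependent.of_comp F.subtype
    convert H.pair x y hxy using 1
    ext i
    fin_cases i <;> rfl
  have := h1.fintype_card_le_finrank
  simp at this
  omega

theorem Ctx.case6 (c : Ctx C v E X Z) (hZ : Z.card = 6) : False := by
  have hd : ∀ z ∈ Z, dd C Z z = 2 := by
    intro z hz
    have h1 := c.key hz
    have h2 := dd_le (C := C) (Z := Z) z
    have h3 : dd C Z z ≠ 3 := fun h => by have := dd_three h; omega
    omega
  have hsum := sum_dd (C := C) (Z := Z)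
  rw [sum_congr rfl hd, sum_const, smul_eq_mul, hZ] at hsum
  have hD : 2 < (C.lines.filter (fun l => l ⊆ Z)).card := by omega
  obtain ⟨l1, hl1, l2, hl2, l3, hl3, h12, h13, h23⟩ := two_lt_card.1 hD
  rw [mem_filter] at hl1 hl2 hl3
  have hr := c.good.rank3 hl1.1 hl2.1 hl3.1 h12 h13 h23 hl1.2 hl2.2 hl3.2
  have hF : finrank ℝ (E ⊓ R v Z : Submodule ℝ W) ≤ 1 := by
    have := c.inf_rank
    omega
  have hA : ∀ z ∈ Z, ∃ l ∈ C.lines, z ∈ l ∧ ¬ l ⊆ Z := by
    intro z hz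
    by_contra hcon
    push Not at hcon
    have := star_card (C := C) z Z hcon
    omega
  have hx : ∀ z ∈ Z, ∀ l ∈ C.lines, z ∈ l → ¬ l ⊆ Z → ∃ x ∈ l, v x ∈ E ⊓ R v Z ∧ l ⊆ insert x Z := by
    intro z hz l hl hzl hn
    obtain ⟨z', x, h1, h2, h3, e, h4, h5, h6⟩ := c.aline hl hzl hz hn
    have hz' : z' ∈ l := by rw [e]; simp
    have hxl : x ∈ l := by rw [e]; simp
    refine ⟨x, hxl, ⟨(c.memX x).1 h5, c.good.closed hl hzl hz' h1.symm hxl (mem_R hz) (mem_R h4)⟩,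
      ?_⟩
    rw [e]
    intro w hw
    simp only [mem_insert, mem_singleton] at hw ⊢
    rcases hw with rfl | rfl | rfl
    · exact Or.inr hz
    · exact Or.inr h4
    · exact Or.inl rfl
  obtain ⟨z0, hz0⟩ : Z.Nonempty := card_pos.1 (by omega)
  obtain ⟨l0, hl0, hz0l, hn0⟩ := hA z0 hz0
  obtain ⟨e0, he0l, he0, _⟩ := hx z0 hz0 l0 hl0 hz0l hn0
  have he0Z : e0 ∉ Z := fun h => (c.memZ e0).1 h he0.1
  have hcl : ∀ z ∈ Z, ∀ l ∈ C.lines, z ∈ l → l ⊆ insert e0 Z := by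
    intro z hz l hl hzl
    by_cases hn : l ⊆ Z
    · exact hn.trans (subset_insert _ _)
    · obtain ⟨x, _, hx2, hx3⟩ := hx z hz l hl hzl hn
      rw [pair_ne c.good hF hx2 he0] at hx3
      exact hx3
  have hjoin : ∀ z ∈ Z, ∃ l ∈ C.lines, e0 ∈ l ∧ z ∈ l := by
    intro z hz
    obtain ⟨l, hl, hzl, hn⟩ := hA z hz
    obtain ⟨x, hx1, hx2, _⟩ := hx z hz l hl hzl hn
    rw [pair_ne c.good hF hx2 he0] at hx1
    exact ⟨l, hl, hx1, hzl⟩
  obtain ⟨k1, k2, k3, a1, b1, a2, b2, a3, b3, hk1, hk2, hk3, e1, e2, e3, nd, _, _, _, hall⟩ :=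
    star_pts (C := C) e0 (fun _ => True) (by
      intro l hl hfl'
      obtain ⟨a, b, ha, hb, hab, e⟩ := pts hl hfl'
      exact ⟨a, by rw [e]; simp, ha, trivial⟩)
  have hsub : insert e0 Z ⊆ ({e0, a1, b1, a2, b2, a3, b3} : Finset (Fin n)) := by
    intro z hz
    rw [mem_insert] at hz
    rcases hz with rfl | hz
    · simp
    · obtain ⟨l, hl, he, hzl⟩ := hjoin z hz
      rcases hall l hl he with h | h | h
      · rw [h, e1] at hzl
        simp only [mem_insert, mem_singleton] at hzl ⊢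
        tauto
      · rw [h, e2] at hzl
        simp only [mem_insert, mem_singleton] at hzl ⊢
        tauto
      · rw [h, e3] at hzl
        simp only [mem_insert, mem_singleton] at hzl ⊢
        tauto
  have hQ7 : (insert e0 Z).card = 7 := by rw [card_insert_of_notMem he0Z, hZ]
  have hQeq : insert e0 Z = ({e0, a1, b1, a2, b2, a3, b3} : Finset (Fin n)) := by
    apply eq_of_subset_of_card_le hsub
    rw [card_of_nodup7 nd, hQ7]
  have hin : ∀ w, w ≠ e0 → w ∈ ({e0, a1, b1, a2, b2, a3, b3} : Finset (Fin n)) → w ∈ Z := by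
    intro w hw hwQ
    rw [← hQeq, mem_insert] at hwQ
    exact hwQ.resolve_left hw
  have hl := nd
  simp only [List.nodup_cons, List.mem_cons, List.not_mem_nil, or_false, not_or, not_false_eq_true,
    List.nodup_nil, and_true] at hl
  obtain ⟨⟨n1, n2, n3, n4, n5, n6⟩, _⟩ := hl
  exact c.good.fano_star hk1 hk2 hk3 e1 e2 e3 nd (insert e0 Z) hQ7.le hQeq ⊥ (by simp)
    (hcl a1 (hin a1 (Ne.symm n1) (by simp))) (hcl a2 (hin a2 (Ne.symm n3) (by simp)))
    (hcl a3 (hin a3 (Ne.symm n5) (by simp))) (fun _ => hcl b1 (hin b1 (Ne.symm n2) (by simp)))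
    (fun _ => hcl b2 (hin b2 (Ne.symm n4) (by simp)))
    (fun _ => hcl b3 (hin b3 (Ne.symm n6) (by simp)))

/-- No two points of `Z` are on no line inside `Z` (`|Z| = 8`). -/
theorem Ctx.two_free (c : Ctx C v E X Z) (hZ : Z.card = 8) {u1 u2 : Fin n} (hu : u1 ≠ u2)
    (hu1 : u1 ∈ Z) (hu2 : u2 ∈ Z) (h1 : ∀ l ∈ C.lines, u1 ∈ l → ¬ l ⊆ Z)
    (h2 : ∀ l ∈ C.lines, u2 ∈ l → ¬ l ⊆ Z)
    (hD : 1 < (C.lines.filter (fun l => l ⊆ Z)).card) : False := by
  classical
  set F := E ⊔ Submodule.span ℝ {v u1} with hF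
  have hEF : E ≤ F := le_sup_left
  obtain ⟨p0, hp0⟩ := c.exists_out (c.rankF u1)
  have hY4 := c.good.outside hp0
  set Y := univ.filter (fun q => v q ∉ F) with hYdef
  have memY : ∀ q, q ∈ Y ↔ v q ∉ F := by intro q; simp [hYdef]
  set K := Z.filter (fun q => v q ∈ F) with hKdef
  have memK : ∀ q, q ∈ K ↔ q ∈ Z ∧ v q ∈ F := by intro q; simp [hKdef]
  have hYsub : ∀ q ∈ Y, q ∈ Z := by
    intro q hq
    rw [c.memZ]
    exact fun h => (memY q).1 hq (hEF h)
  have hYZ : Z.filter (fun q => ¬ v q ∈ F) = Y := by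
    ext q
    rw [mem_filter, memY]
    exact ⟨fun h => h.2, fun h => ⟨hYsub q ((memY q).2 h), h⟩⟩
  have hKY : K.card + Y.card = 8 := by
    rw [← hYZ, hKdef, ← hZ]
    exact card_filter_add_card_filter_not _
  have hu1K : u1 ∈ K := (memK u1).2 ⟨hu1, Ctx.self_mem u1⟩
  -- lines through u1 and u2 are A-lines
  have hA1 : ∀ u ∈ Z, v u ∈ F → (∀ l ∈ C.lines, u ∈ l → ¬ l ⊆ Z) →
      ∀ l ∈ thr C u, ∃ q ∈ l, q ≠ u ∧ q ∈ K := by
    intro u hu huF hul l hl
    rw [mem_thr] at hl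
    obtain ⟨z', x, h1, _, _, e, h2, _, h3⟩ := c.aline hl.1 hl.2 hu (hul l hl.1 hl.2)
    exact ⟨z', by rw [e]; simp, h1, (memK z').2 ⟨h2, Ctx.le hEF huF h3⟩⟩
  have hK4 := card_of_choose (C := C) u1 (thr C u1) subset_rfl K hu1K
    (hA1 u1 hu1 (Ctx.self_mem u1) h1)
  rw [thr_card] at hK4
  have hKc : K.card = 4 := by omega
  have hYc : Y.card = 4 := by omega
  -- `Y` is a complete quadruple
  have hYch : ∀ y ∈ Y, ∀ l ∈ thr C y, ∃ q ∈ l, q ≠ y ∧ q ∈ Y := by
    intro y hy l hl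
    rw [mem_thr] at hl
    obtain ⟨a, b, ha, hb, hab, e⟩ := pts hl.1 hl.2
    have hal : a ∈ l := by rw [e]; simp
    have hbl : b ∈ l := by rw [e]; simp
    by_cases h : v a ∈ F
    · refine ⟨b, hbl, hb, (memY b).2 fun h' => (memY y).1 hy ?_⟩
      exact c.good.closed hl.1 hal hbl hab.symm hl.2 h h'
    · exact ⟨a, hal, ha, (memY a).2 h⟩
  have hYs : ∀ y ∈ Y, (∀ q ∈ Y, q ≠ y → ∃ l ∈ thr C y, q ∈ l) ∧
      (∀ l ∈ thr C y, ∀ q ∈ l, ∀ q' ∈ l, q ≠ y → q' ≠ y → q ∈ Y → q' ∈ Y → q = q') := by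
    intro y hy
    apply surj_of_choose (C := C) y (thr C y) subset_rfl Y hy (hYch y hy)
    rw [thr_card, hYc]
  -- every line inside `Z` meets `K`
  have hmeet : ∀ m ∈ C.lines, m ⊆ Z → ∃ k ∈ m, k ∈ K := by
    intro m hm hmZ
    by_contra hcon
    push Not at hcon
    have hmY : m ⊆ Y := by
      intro x hx
      rw [memY]
      intro h
      exact hcon x hx ((memK x).2 ⟨hmZ hx, h⟩)
    have hne : m.Nonempty := card_pos.1 (by rw [C.card_line m hm]; norm_num)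
    obtain ⟨y, hy⟩ := hne
    obtain ⟨a, b, ha, hb, hab, e⟩ := pts hm hy
    have hal : a ∈ m := by rw [e]; simp
    have hbl : b ∈ m := by rw [e]; simp
    exact hab ((hYs y (hmY hy)).2 m (mem_thr.2 ⟨hm, hy⟩) b hbl a hal hb ha (hmY hbl) (hmY hal))
  obtain ⟨m1, hm1, m2, hm2, hm12⟩ := one_lt_card.1 hD
  rw [mem_filter] at hm1 hm2
  by_cases hu2Y : u2 ∈ Y
  · -- first case
    have hYu2 : ∀ y ∈ Y, v y ∈ E ⊔ Submodule.span ℝ {v u2} := by
      intro y hy
      by_cases hyu : y = u2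
      · rw [hyu]; exact Ctx.self_mem u2
      obtain ⟨l, hl, hyl⟩ := (hYs u2 hu2Y).1 y hy hyu
      rw [mem_thr] at hl
      obtain ⟨z', x, g1, g2, g3, e, g4, g5, g6⟩ := c.aline hl.1 hl.2 hu2 (h2 l hl.1 hl.2)
      rw [e] at hyl
      simp only [mem_insert, mem_singleton] at hyl
      rcases hyl with h | h | h
      · exact absurd h hyu
      · rw [h]; exact g6
      · rw [h]; exact Submodule.mem_sup_left ((c.memX x).1 g5)
    have hmK : ∀ m ∈ C.lines, m ⊆ Z → m ⊆ K := by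
      intro m hm hmZ y hy
      rw [memK]
      refine ⟨hmZ hy, ?_⟩
      by_contra hyF
      have hyY : y ∈ Y := (memY y).2 hyF
      obtain ⟨y', hy', hyy', hyY'⟩ := hYch y hyY m (mem_thr.2 ⟨hm, hy⟩)
      obtain ⟨k, hk, hkK⟩ := hmeet m hm hmZ
      have hkF := ((memK k).1 hkK).2
      have g1 : v k ∈ E ⊔ Submodule.span ℝ {v u2} :=
        c.good.closed hm hy hy' hyy'.symm hk (hYu2 y hyY) (hYu2 y' hyY')
      have g2 : v k ∉ E := (c.memZ k).1 (hmZ hk)
      have g3 := exch g1 g2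
      exact (memY u2).1 hu2Y (Ctx.le hEF hkF g3)
    have s1 := hmK m1 hm1.1 hm1.2
    have s2 := hmK m2 hm2.1 hm2.2
    have g1 := card_union_add_card_inter m1 m2
    have g2 := card_le_card (union_subset s1 s2)
    have g3 := inter_le_one hm1.1 hm2.1 hm12
    rw [C.card_line m1 hm1.1, C.card_line m2 hm2.1] at g1
    omega
  · -- second case
    have hu2F : v u2 ∈ F := by
      by_contra h; exact hu2Y ((memY u2).2 h)
    have hu2K : u2 ∈ K := (memK u2).2 ⟨hu2, hu2F⟩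
    have hj1 := (surj_of_choose (C := C) u1 (thr C u1) subset_rfl K hu1K
      (hA1 u1 hu1 (Ctx.self_mem u1) h1) (by rw [thr_card, hKc])).1
    have hj2 := (surj_of_choose (C := C) u2 (thr C u2) subset_rfl K hu2K
      (hA1 u2 hu2 hu2F h2) (by rw [thr_card, hKc])).1
    -- points of `K` other than u1, u2 are on at most one line inside `Z`
    have hK1 : ∀ k ∈ K, k ≠ u1 → k ≠ u2 → ∀ m ∈ C.lines, m ⊆ Z → k ∈ m →
        ∀ m' ∈ C.lines, m' ⊆ Z → k ∈ m' → m = m' := by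
      intro k hk hk1 hk2 m hm hmZ hkm m' hm' hmZ' hkm'
      by_contra hne
      obtain ⟨g1, hg1, hkg1⟩ := hj1 k hk hk1
      obtain ⟨g2, hg2, hkg2⟩ := hj2 k hk hk2
      rw [mem_thr] at hg1 hg2
      have hg12 : g1 ≠ g2 := by
        rintro rfl
        apply h1 g1 hg1.1 hg1.2
        rw [eq_triple hg1.1 hg1.2 hg2.2 hkg1 hu hk1.symm hk2.symm]
        intro x hx
        simp only [mem_insert, mem_singleton] at hx
        rcases hx with rfl | rfl | rfl
        · exact hu1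
        · exact hu2
        · exact ((memK _).1 hk).1
      have hs : ({g1, g2, m, m'} : Finset (Finset (Fin n))) ⊆ thr C k := by
        intro x hx
        simp only [mem_insert, mem_singleton] at hx
        rw [mem_thr]
        rcases hx with rfl | rfl | rfl | rfl
        · exact ⟨hg1.1, hkg1⟩
        · exact ⟨hg2.1, hkg2⟩
        · exact ⟨hm, hkm⟩
        · exact ⟨hm', hkm'⟩
      have hcard : ({g1, g2, m, m'} : Finset (Finset (Fin n))).card = 4 := by
        rw [card_insert_of_notMem, card_insert_of_notMem, card_insert_of_notMem, card_singleton]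
        · simpa using hne
        · simp only [mem_insert, mem_singleton, not_or]
          exact ⟨fun h => h2 g2 hg2.1 hg2.2 (h ▸ hmZ), fun h => h2 g2 hg2.1 hg2.2 (h ▸ hmZ')⟩
        · simp only [mem_insert, mem_singleton, not_or]
          exact ⟨hg12, fun h => h1 g1 hg1.1 hg1.2 (h ▸ hmZ), fun h => h1 g1 hg1.1 hg1.2 (h ▸ hmZ')⟩
      have := card_le_card hs
      rw [hcard, thr_card] at this
      omega
    have hmeet' : ∀ m ∈ C.lines, m ⊆ Z → ∃ k ∈ m, k ∈ K ∧ k ≠ u1 ∧ k ≠ u2 := by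
      intro m hm hmZ
      obtain ⟨k, hk, hkK⟩ := hmeet m hm hmZ
      refine ⟨k, hk, hkK, ?_, ?_⟩
      · rintro rfl; exact h1 m hm hk hmZ
      · rintro rfl; exact h2 m hm hk hmZ
    obtain ⟨k1, hk1, hk1K, n11, n12⟩ := hmeet' m1 hm1.1 hm1.2
    obtain ⟨k2, hk2, hk2K, n21, n22⟩ := hmeet' m2 hm2.1 hm2.2
    have hk12 : k1 ≠ k2 := by
      rintro rfl
      exact hm12 (hK1 k1 hk1K n11 n12 m1 hm1.1 hm1.2 hk1 m2 hm2.1 hm2.2 hk2)
    have hk2m1 : k2 ∉ m1 := fun h => hm12 (hK1 k2 hk2K n21 n22 m1 hm1.1 hm1.2 h m2 hm2.1 hm2.2 hk2)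
    have hKeq : ∀ k ∈ K, k ≠ u1 → k ≠ u2 → k = k1 ∨ k = k2 := by
      intro k hk hk1' hk2'
      by_contra hcon
      push Not at hcon
      have hs : ({u1, u2, k1, k2, k} : Finset (Fin n)) ⊆ K := by
        intro x hx
        simp only [mem_insert, mem_singleton] at hx
        rcases hx with rfl | rfl | rfl | rfl | rfl <;> assumption
      have hcard : ({u1, u2, k1, k2, k} : Finset (Fin n)).card = 5 := by
        rw [card_insert_of_notMem, card_insert_of_notMem, card_insert_of_notMem,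
          card_insert_of_notMem, card_singleton]
        · simpa using hcon.2.symm
        · simp only [mem_insert, mem_singleton, not_or]
          exact ⟨hk12, hcon.1.symm⟩
        · simp only [mem_insert, mem_singleton, not_or]
          exact ⟨n12.symm, n22.symm, hk2'.symm⟩
        · simp only [mem_insert, mem_singleton, not_or]
          exact ⟨hu, n11.symm, n21.symm, hk1'.symm⟩
      have := card_le_card hs
      omega
    have honly : ∀ m ∈ C.lines, m ⊆ Z → m = m1 ∨ m = m2 := by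
      intro m hm hmZ
      obtain ⟨k, hk, hkK, g1, g2⟩ := hmeet' m hm hmZ
      rcases hKeq k hkK g1 g2 with rfl | rfl
      · exact Or.inl (hK1 k hkK g1 g2 m hm hmZ hk m1 hm1.1 hm1.2 hk1)
      · exact Or.inr (hK1 k hkK g1 g2 m hm hmZ hk m2 hm2.1 hm2.2 hk2)
    obtain ⟨s, t, hs, ht, hst, e⟩ := pts hm1.1 hk1
    have hsm : s ∈ m1 := by rw [e]; simp
    have htm : t ∈ m1 := by rw [e]; simp
    have hYm1 : ∀ x ∈ m1, x ≠ k1 → x ∈ Y := by
      intro x hx hxk
      rw [memY]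
      intro hxF
      have hxK : x ∈ K := (memK x).2 ⟨hm1.2 hx, hxF⟩
      rcases hKeq x hxK (by rintro rfl; exact h1 m1 hm1.1 hx hm1.2)
        (by rintro rfl; exact h2 m1 hm1.1 hx hm1.2) with h | h
      · exact hxk h
      · exact hk2m1 (h ▸ hx)
    have hsY := hYm1 s hsm hs
    have htY := hYm1 t htm ht
    have hnot : v t ∉ E ⊔ Submodule.span ℝ {v s} := by
      intro h
      have g1 : v k1 ∈ E ⊔ Submodule.span ℝ {v s} :=
        c.good.closed hm1.1 hsm htm hst.symm hk1 (Ctx.self_mem s) h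
      have g2 := exch g1 ((c.memZ k1).1 ((memK k1).1 hk1K).1)
      exact (memY s).1 hsY (Ctx.le hEF ((memK k1).1 hk1K).2 g2)
    -- an A-line joining two points of `Y`
    have hAj : ∀ y ∈ Y, ∀ y' ∈ Y, y' ≠ y → ∀ l ∈ thr C y, y' ∈ l → l ≠ m1 → l ≠ m2 →
        v y' ∈ E ⊔ Submodule.span ℝ {v y} := by
      intro y hy y' hy' hne l hl hyl hl1 hl2
      rw [mem_thr] at hl
      have hnZ : ¬ l ⊆ Z := fun h => (honly l hl.1 h).elim hl1 hl2
      obtain ⟨z', x, g1, g2, g3, e, g4, g5, g6⟩ := c.aline hl.1 hl.2 (hYsub y hy) hnZ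
      rw [e] at hyl
      simp only [mem_insert, mem_singleton] at hyl
      rcases hyl with h | h | h
      · exact absurd h hne
      · rw [h]; exact g6
      · rw [h]; exact Submodule.mem_sup_left ((c.memX x).1 g5)
    -- other two points of `Y`
    have hYe : ((Y.erase s).erase t).card = 2 := by
      rw [card_erase_of_mem (mem_erase.2 ⟨hst, htY⟩), card_erase_of_mem hsY, hYc]
    obtain ⟨p, q, hpq, hpqe⟩ := card_eq_two.1 hYe
    have hp : p ∈ (Y.erase s).erase t := by rw [hpqe]; simp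
    have hq : q ∈ (Y.erase s).erase t := by rw [hpqe]; simp
    simp only [mem_erase] at hp hq
    have hpm1 : ∀ w ∈ Y, w ≠ s → w ≠ t → w ∉ m1 := by
      intro w hw hws hwt h
      exact hwt ((hYs s hsY).2 m1 (mem_thr.2 ⟨hm1.1, hsm⟩) w h t htm hws hst hw htY)
    have hin : ∀ w ∈ Y, w ≠ s → w ≠ t → w ∈ m2 := by
      intro w hw hws hwt
      by_contra hwm
      obtain ⟨l, hl, hwl⟩ := (hYs s hsY).1 w hw hws
      obtain ⟨l', hl', htl⟩ := (hYs w hw).1 t htY hwt.symm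
      have g1 := hAj s hsY w hw hws l hl hwl (by rintro rfl; exact hpm1 w hw hws hwt hwl)
        (by rintro rfl; exact hwm hwl)
      have g2 := hAj w hw t htY hwt.symm l' hl' htl
        (by rintro rfl; exact hpm1 w hw hws hwt (mem_thr.1 hl').2)
        (by rintro rfl; exact hwm (mem_thr.1 hl').2)
      exact hnot (Ctx.le le_sup_left g1 g2)
    have hpm2 := hin p hp.2.2 hp.2.1 hp.1
    have hqm2 := hin q hq.2.2 hq.2.1 hq.1
    have hsm2 : s ∉ m2 := by
      intro h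
      exact hq.2.1 ((hYs p hp.2.2).2 m2 (mem_thr.2 ⟨hm2.1, hpm2⟩) q hqm2 s h hpq.symm
        (Ne.symm hp.2.1) hq.2.2 hsY)
    have htm2 : t ∉ m2 := by
      intro h
      exact hq.1 ((hYs p hp.2.2).2 m2 (mem_thr.2 ⟨hm2.1, hpm2⟩) q hqm2 t h hpq.symm
        (Ne.symm hp.1) hq.2.2 htY)
    obtain ⟨l, hl, hpl⟩ := (hYs s hsY).1 p hp.2.2 hp.2.1
    obtain ⟨l', hl', htl⟩ := (hYs p hp.2.2).1 t htY (Ne.symm hp.1)
    have g1 := hAj s hsY p hp.2.2 hp.2.1 l hl hpl
      (by rintro rfl; exact hpm1 p hp.2.2 hp.2.1 hp.1 hpl)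
      (by rintro rfl; exact hsm2 (mem_thr.1 hl).2)
    have g2 := hAj p hp.2.2 t htY (Ne.symm hp.1) l' hl' htl
      (by rintro rfl; exact hpm1 p hp.2.2 hp.2.1 hp.1 (mem_thr.1 hl').2)
      (by rintro rfl; exact htm2 htl)
    exact hnot (Ctx.le le_sup_left g1 g2)

omit [FiniteDimensional ℝ W] in
theorem Ctx.count8 (c : Ctx C v E X Z) (hX : X.card = 6) (hn : n = 14) :
    (C.lines.filter (fun l => l ⊆ Z)).card + 4 = 2 * (C.lines.filter (fun l => l ⊆ X)).card := by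
  have h0 := double_count C.lines X
  have h1 : ∀ p ∈ X, (C.lines.filter (fun l => p ∈ l)).card = 3 := fun p _ => C.degree p
  rw [sum_congr rfl h1, sum_const, smul_eq_mul, hX] at h0
  rw [← sum_filter_add_sum_filter_not C.lines (fun l => l ⊆ X)] at h0
  rw [← sum_filter_add_sum_filter_not (C.lines.filter (fun l => ¬ l ⊆ X)) (fun l => l ⊆ Z)] at h0
  have hd : ∀ l : Finset (Fin n), l ⊆ Z → ∀ x ∈ l, x ∉ X := by
    intro l hl x hx hxX
    exact (c.memZ x).1 (hl hx) ((c.memX x).1 hxX)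
  have s1 : ∀ l ∈ C.lines.filter (fun l => l ⊆ X), (l ∩ X).card = 3 := by
    intro l hl
    rw [mem_filter] at hl
    rw [inter_eq_left.2 hl.2, C.card_line l hl.1]
  have s2 : ∀ l ∈ (C.lines.filter (fun l => ¬ l ⊆ X)).filter (fun l => l ⊆ Z),
      (l ∩ X).card = 0 := by
    intro l hl
    rw [mem_filter] at hl
    rw [card_eq_zero, eq_empty_iff_forall_notMem]
    intro x hx
    rw [mem_inter] at hx
    exact hd l hl.2 x hx.1 hx.2
  have s3 : ∀ l ∈ (C.lines.filter (fun l => ¬ l ⊆ X)).filter (fun l => ¬ l ⊆ Z),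
      (l ∩ X).card = 1 := by
    intro l hl
    rw [mem_filter, mem_filter] at hl
    obtain ⟨⟨hl, hn1⟩, hn2⟩ := hl
    obtain ⟨x, hx, hxZ⟩ := not_subset.1 hn2
    have hxX : x ∈ X := by
      rw [c.memX]; by_contra h; exact hxZ ((c.memZ x).2 h)
    rw [card_eq_one]
    refine ⟨x, ?_⟩
    ext y
    rw [mem_inter, mem_singleton]
    constructor
    · rintro ⟨hy, hyX⟩
      by_contra hyx
      apply hn1
      intro w hw
      rw [c.memX] at hxX hyX ⊢
      exact c.good.closed hl hx hy (Ne.symm hyx) hw hxX hyX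
    · rintro rfl
      exact ⟨hx, hxX⟩
  rw [sum_congr rfl s1, sum_congr rfl s2, sum_congr rfl s3, sum_const, sum_const, sum_const] at h0
  have c1 := card_filter_add_card_filter_not (s := C.lines) (fun l => l ⊆ X)
  have c2 := card_filter_add_card_filter_not (s := C.lines.filter (fun l => ¬ l ⊆ X))
    (fun l => l ⊆ Z)
  have c3 : (C.lines.filter (fun l => ¬ l ⊆ X)).filter (fun l => l ⊆ Z)
      = C.lines.filter (fun l => l ⊆ Z) := by
    ext l
    simp only [mem_filter]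
    constructor
    · rintro ⟨⟨a, b⟩, d⟩; exact ⟨a, d⟩
    · rintro ⟨a, b⟩
      refine ⟨⟨a, ?_⟩, b⟩
      intro h
      have hne : l.Nonempty := card_pos.1 (by rw [C.card_line l a]; norm_num)
      obtain ⟨x, hx⟩ := hne
      exact hd l b x hx (h hx)
  rw [c3] at c2
  rw [C.card_lines] at c1
  simp only [smul_eq_mul] at h0
  omega

theorem dd_zero {z : Fin n} (h : dd C Z z = 0) : ∀ l ∈ C.lines, z ∈ l → ¬ l ⊆ Z := by
  intro l hl hz hlZ
  unfold dd at h
  rw [card_eq_zero] at h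
  have : l ∈ (C.lines.filter (fun l => l ⊆ Z)).filter (fun l => z ∈ l) := by
    rw [mem_filter, mem_filter]; exact ⟨⟨hl, hlZ⟩, hz⟩
  rw [h] at this
  simp at this

theorem Ctx.case8 (c : Ctx C v E X Z) (hZ : Z.card = 8) (hX : X.card = 6)
    (he : 3 ≤ (C.lines.filter (fun l => l ⊆ X)).card) : False := by
  have hn : n = 14 := by have := c.card; omega
  have hcount := c.count8 hX hn
  have he4 : (C.lines.filter (fun l => l ⊆ X)).card ≤ 4 := by
    have h1 := sum_dd (C := C) (Z := X)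
    have h2 : ∀ x ∈ X, dd C X x ≤ 2 := by
      intro x _
      have h3 := dd_le (C := C) (Z := X) x
      have h4 : dd C X x ≠ 3 := fun h => by have := dd_three h; omega
      omega
    have h3 := sum_le_sum h2
    rw [h1, sum_const, smul_eq_mul, hX] at h3
    omega
  have hsum := sum_dd (C := C) (Z := Z)
  have hone : (Z.filter (fun z => dd C Z z = 0)).card ≤ 1 := by
    rw [card_le_one]
    intro a ha b hb
    rw [mem_filter] at ha hb
    by_contra hab
    exact c.two_free hZ hab ha.1 hb.1 (dd_zero ha.2) (dd_zero hb.2) (by omega)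
  have hseven : 7 ≤ (Z.filter (fun z => ¬ dd C Z z = 0)).card := by
    have := card_filter_add_card_filter_not (s := Z) (fun z => dd C Z z = 0)
    omega
  have hlow : ∀ k : ℕ, (∀ z ∈ Z, ¬ dd C Z z = 0 → k ≤ dd C Z z) → 7 * k ≤ ∑ z ∈ Z, dd C Z z := by
    intro k hk
    calc 7 * k ≤ (Z.filter (fun z => ¬ dd C Z z = 0)).card * k := Nat.mul_le_mul_right _ hseven
      _ = ∑ z ∈ Z.filter (fun z => ¬ dd C Z z = 0), k := by rw [sum_const, smul_eq_mul]
      _ ≤ ∑ z ∈ Z.filter (fun z => ¬ dd C Z z = 0), dd C Z z := by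
          apply sum_le_sum
          intro z hz
          rw [mem_filter] at hz
          exact hk z hz.1 hz.2
      _ ≤ ∑ z ∈ Z, dd C Z z := sum_le_sum_of_subset (filter_subset _ _)
  have h7 := hlow 1 (fun z _ h => Nat.one_le_iff_ne_zero.2 h)
  have hD4 : (C.lines.filter (fun l => l ⊆ Z)).card = 4 := by omega
  obtain ⟨z, hz, hz1⟩ : ∃ z ∈ Z, dd C Z z = 1 := by
    by_contra hcon
    push Not at hcon
    have := hlow 2 (fun z hz h => by have := hcon z hz; omega)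
    omega
  obtain ⟨l4, hl4⟩ := card_eq_one.1 hz1
  have hl4m : l4 ∈ (C.lines.filter (fun l => l ⊆ Z)).filter (fun l => z ∈ l) := by
    rw [hl4]; simp
  rw [mem_filter] at hl4m
  have h3 : 2 < ((C.lines.filter (fun l => l ⊆ Z)).erase l4).card := by
    rw [card_erase_of_mem hl4m.1]; omega
  obtain ⟨l1, hl1, l2, hl2, l3, hl3, h12, h13, h23⟩ := two_lt_card.1 h3
  have hnot : ∀ l ∈ (C.lines.filter (fun l => l ⊆ Z)).erase l4, z ∉ l := by
    intro l hl hzl
    rw [mem_erase] at hl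
    have : l ∈ (C.lines.filter (fun l => l ⊆ Z)).filter (fun l => z ∈ l) :=
      mem_filter.2 ⟨hl.2, hzl⟩
    rw [hl4, mem_singleton] at this
    exact hl.1 this
  have n1 := hnot l1 hl1
  have n2 := hnot l2 hl2
  have n3 := hnot l3 hl3
  rw [mem_erase, mem_filter] at hl1 hl2 hl3
  rw [mem_filter] at hl4m
  have hr := c.good.rank4 hl1.2.1 hl2.2.1 hl3.2.1 hl4m.1.1 h12 h13 h23 hl1.2.2 hl2.2.2 hl3.2.2
    hl4m.1.2 hl4m.2 n1 n2 n3
  obtain ⟨f, hf⟩ := c.exists_out (F := R v Z) (by omega)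
  have := star_card (C := C) f X (c.inX hf).2
  omega

theorem Good.main (H : Good C v) (hn : 1 ≤ n) (hn14 : n ≤ 14)
    (hr : 5 ≤ finrank ℝ (Submodule.span ℝ (Set.range v))) : False := by
  classical
  obtain ⟨p, q, r, l1, l2, m, hl1, hl2, hm, p1, p2, pm, q1, qm, r2, rm, hqr, h12⟩ :=
    triangle (C := C) hn hn14
  have h1m : l1 ≠ m := by rintro rfl; exact pm p1
  have h2m : l2 ≠ m := by rintro rfl; exact pm p2
  have hpq : p ≠ q := by rintro rfl; exact pm qm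
  have hpr : p ≠ r := by rintro rfl; exact pm rm
  set E : Submodule ℝ W := R v {p, q, r} with hE
  have hEr : finrank ℝ E ≤ 3 := (finrank_R_le _).trans card_le_three
  have hpE : v p ∈ E := mem_R (by simp)
  have hqE : v q ∈ E := mem_R (by simp)
  have hrE : v r ∈ E := mem_R (by simp)
  set X : Finset (Fin n) := univ.filter (fun p => v p ∈ E) with hXdef
  set Z : Finset (Fin n) := univ.filter (fun p => ¬ v p ∈ E) with hZdef
  have c : Ctx C v E X Z := by
    refine ⟨H, hr, hEr, fun p => by simp [hXdef], fun p => by simp [hZdef], ?_⟩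
    rw [hXdef, hZdef, card_filter_add_card_filter_not, card_univ, Fintype.card_fin]
  have s1 : l1 ⊆ X := fun x hx => (c.memX x).2 (H.closed hl1 p1 q1 hpq hx hpE hqE)
  have s2 : l2 ⊆ X := fun x hx => (c.memX x).2 (H.closed hl2 p2 r2 hpr hx hpE hrE)
  have s3 : m ⊆ X := fun x hx => (c.memX x).2 (H.closed hm qm rm hqr hx hqE hrE)
  have hX6 : 6 ≤ X.card := by
    have g1 := card_union_add_card_inter l1 l2
    have g2 := card_union_add_card_inter (l1 ∪ l2) m
    have g3 := inter_le_one hl1 hl2 h12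
    have g4 := inter_le_one hl1 hm h1m
    have g5 := inter_le_one hl2 hm h2m
    have g6 : ((l1 ∪ l2) ∩ m).card ≤ (l1 ∩ m).card + (l2 ∩ m).card := by
      rw [union_inter_distrib_right]; exact card_union_le _ _
    have g7 := card_le_card (union_subset (union_subset s1 s2) s3)
    rw [C.card_line l1 hl1, C.card_line l2 hl2] at g1
    rw [C.card_line m hm] at g2
    omega
  have he : 3 ≤ (C.lines.filter (fun l => l ⊆ X)).card := by
    have hs : ({l1, l2, m} : Finset (Finset (Fin n))) ⊆ C.lines.filter (fun l => l ⊆ X) := by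
      intro x hx
      simp only [mem_insert, mem_singleton] at hx
      rw [mem_filter]
      rcases hx with rfl | rfl | rfl
      · exact ⟨hl1, s1⟩
      · exact ⟨hl2, s2⟩
      · exact ⟨hm, s3⟩
    have hc : ({l1, l2, m} : Finset (Finset (Fin n))).card = 3 := by
      rw [card_insert_of_notMem, card_insert_of_notMem, card_singleton]
      · simpa using h2m
      · simp only [mem_insert, mem_singleton, not_or]; exact ⟨h12, h1m⟩
    rw [← hc]
    exact card_le_card hs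
  obtain ⟨z0, hz0⟩ := c.exists_out (F := E) (by omega)
  have hz0Z : z0 ∈ Z := (c.memZ z0).2 hz0
  have k1 := c.key hz0Z
  have k2 := dd_le (C := C) (Z := Z) z0
  have k3 : dd C Z z0 = 3 → 7 ≤ Z.card := dd_three
  have hcard := c.card
  have hZ : Z.card = 6 ∨ Z.card = 7 ∨ Z.card = 8 := by
    by_cases h : dd C Z z0 = 3
    · have := k3 h; omega
    · omega
  rcases hZ with hZ | hZ | hZ
  · exact c.case6 hZ
  · have hd : ∀ z ∈ Z, 1 ≤ dd C Z z := by
      intro z hz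
      have := c.key hz
      omega
    have h1 := sum_le_sum hd
    rw [sum_dd, sum_const, smul_eq_mul, hZ] at h1
    have hD : 2 < (C.lines.filter (fun l => l ⊆ Z)).card := by omega
    obtain ⟨l1, hl1, l2, hl2, l3, hl3, h12, h13, h23⟩ := two_lt_card.1 hD
    rw [mem_filter] at hl1 hl2 hl3
    have hr := c.good.rank3 hl1.1 hl2.1 hl3.1 h12 h13 h23 hl1.2 hl2.2 hl3.2
    exact c.case7 hn14 hZ (by omega)
  · exact c.case8 hZ (by omega) he

/-- Core theorem. -/
theorem core {n : ℕ} (hn : 1 ≤ n) (hn14 : n ≤ 14) (C : Config n)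
    {W : Type*} [AddCommGroup W] [Module ℝ W] [FiniteDimensional ℝ W] (v : Fin n → W)
    (hpair : ∀ p q : Fin n, p ≠ q → LinearIndependent ℝ ![v p, v q])
    (hline : ∀ l ∈ C.lines, ∀ p ∈ l, ∀ q ∈ l, p ≠ q → ∀ r : Fin n,
      v r ∈ Submodule.span ℝ {v p, v q} ↔ r ∈ l) :
    Module.finrank ℝ (Submodule.span ℝ (Set.range v)) ≤ 4 := by
  by_contra hcon
  exact (Good.mk hpair hline : Good C v).main hn hn14 (by omega)

end main

end Pool.Agent.H53.Cfg
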